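import Pool.Agent.TWC.StD

/-!
# TMX: definitions, part D (many arcs on one line)

The arcs are the intervals of gaps `[a i, a i + w i]`, `i : Fin g`, of the line between `u` and `v`. `Lv u v` (pairs of
colourings of the local regions below and above the line by `ZMod 3`), `Lk` and `wd` are from `TWC/StB.lean`.
-/

set_option autoImplicit false

namespace Pool.TMX

open LaurentPolynomial Pool.Agent.ARB Pool.Agent.Helper2 Pool.ALT Pool.TWC

/-- the gap `j` is strictly inside of one of the arcs -/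
def Ins {g : ℕ} (a w : Fin g → ℕ) (j : ℕ) : Prop := ∃ i, a i < j ∧ j < a i + w i

/-- pairs of colourings of the regions of parity `ρ` below and above the line which agree at all gaps
that are not strictly inside of an arc -/
def Out (ρ : Bool) (u v : Word) {g : ℕ} (a w : Fin g → ℕ) : Submodule (ZMod 3) (Lv u v) where
  carrier := {p | ((∀ x, pa 0 u x ≠ ρ → p.1 x = 0) ∧ (∀ x, pa (wd 0 u) v x ≠ ρ → p.2 x = 0)) ∧
    ((∀ x y, R0 0 u x y → p.1 x = p.1 y) ∧ (∀ x y, R0 (wd 0 u) v x y → p.2 x = p.2 y)) ∧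
    ∀ j ≤ wd 0 u, ¬ Ins a w j → p.2 (bo (wd 0 u) v j) = p.1 (tp 0 u j)}
  add_mem' := by
    rintro p q ⟨⟨a1, a2⟩, ⟨a3, a4⟩, a5⟩ ⟨⟨b1, b2⟩, ⟨b3, b4⟩, b5⟩
    refine ⟨⟨fun x hx => ?_, fun x hx => ?_⟩, ⟨fun x y h => ?_, fun x y h => ?_⟩, fun j hj h => ?_⟩
    · show p.1 x + q.1 x = 0
      rw [a1 x hx, b1 x hx, add_zero]
    · show p.2 x + q.2 x = 0
      rw [a2 x hx, b2 x hx, add_zero]
    · show p.1 x + q.1 x = p.1 y + q.1 y
      rw [a3 x y h, b3 x y h]
    · show p.2 x + q.2 x = p.2 y + q.2 y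
      rw [a4 x y h, b4 x y h]
    · show p.2 _ + q.2 _ = p.1 _ + q.1 _
      rw [a5 j hj h, b5 j hj h]
  zero_mem' := ⟨⟨fun _ _ => rfl, fun _ _ => rfl⟩, ⟨fun _ _ _ => rfl, fun _ _ _ => rfl⟩,
    fun _ _ _ => rfl⟩
  smul_mem' := by
    rintro c p ⟨⟨a1, a2⟩, ⟨a3, a4⟩, a5⟩
    refine ⟨⟨fun x hx => ?_, fun x hx => ?_⟩, ⟨fun x y h => ?_, fun x y h => ?_⟩, fun j hj h => ?_⟩
    · show c * p.1 x = 0
      rw [a1 x hx, mul_zero]
    · show c * p.2 x = 0
      rw [a2 x hx, mul_zero]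
    · show c * p.1 x = c * p.1 y
      rw [a3 x y h]
    · show c * p.2 x = c * p.2 y
      rw [a4 x y h]
    · show c * p.2 _ = c * p.1 _
      rw [a5 j hj h]

/-- rows of colours of the `w + 1` gaps of an arc of width `w` -/
abbrev Row (w : ℕ) : Type := Fin (w + 1) → ZMod 3

/-- the colours of the gaps of the arc `[a, a + w]` below and above the line -/
def res (u v : Word) (a w : ℕ) : Lv u v →ₗ[ZMod 3] Row w × Row w where
  toFun p := (fun t => p.1 (tp 0 u (a + t.val)), fun t => p.2 (bo (wd 0 u) v (a + t.val)))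
  map_add' _ _ := rfl
  map_smul' _ _ := rfl

/-- the solutions: the regions of parity `ρ` at the crossings in `S` are joined, and the colours
at the arc `i` satisfy `R i` -/
noncomputable def VS (ρ : Bool) (u v : Word) {g : ℕ} (a w : Fin g → ℕ)
    (S : Finset (Fin (nX (u ++ v)))) (R : ∀ i, Submodule (ZMod 3) (Row (w i) × Row (w i))) :
    Submodule (ZMod 3) (Lv u v) :=
  (Out ρ u v a w ⊓ ⨅ k, ⨅ _ : k ∈ S, LinearMap.ker (Lk ρ u v (k : ℕ))) ⊓
    ⨅ i, (R i).comap (res u v (a i) (w i))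

/-- conditions at an arc: monodromy `s` strictly inside, zero at both ends if `z = true`, equal at
both ends if `c = true` -/
def RM (s : ZMod 3) (z c : Bool) (w : ℕ) : Submodule (ZMod 3) (Row w × Row w) where
  carrier := {x | (∀ t : Fin (w + 1), 0 < t.val → t.val < w → x.2 t = s * x.1 t) ∧
    (z = true → x.1 0 = 0 ∧ x.1 (Fin.last w) = 0) ∧ (c = true → x.1 0 = x.1 (Fin.last w))}
  add_mem' := by
    rintro x y ⟨a1, a2, a3⟩ ⟨b1, b2, b3⟩
    refine ⟨fun t h h' => ?_, fun h => ⟨?_, ?_⟩, fun h => ?_⟩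
    · show x.2 t + y.2 t = s * (x.1 t + y.1 t)
      rw [a1 t h h', b1 t h h', mul_add]
    · show x.1 _ + y.1 _ = 0
      rw [(a2 h).1, (b2 h).1, add_zero]
    · show x.1 _ + y.1 _ = 0
      rw [(a2 h).2, (b2 h).2, add_zero]
    · show x.1 _ + y.1 _ = x.1 _ + y.1 _
      rw [a3 h, b3 h]
  zero_mem' := ⟨fun _ _ _ => (mul_zero s).symm, fun _ => ⟨rfl, rfl⟩, fun _ => rfl⟩
  smul_mem' := by
    rintro d x ⟨a1, a2, a3⟩
    refine ⟨fun t h h' => ?_, fun h => ⟨?_, ?_⟩, fun h => ?_⟩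
    · show d * x.2 t = s * (d * x.1 t)
      rw [a1 t h h']
      ring
    · show d * x.1 _ = 0
      rw [(a2 h).1, mul_zero]
    · show d * x.1 _ = 0
      rw [(a2 h).2, mul_zero]
    · show d * x.1 _ = d * x.1 _
      rw [a3 h]

/-- the gap `j` has parity `ρ` -/
def par (ρ : Bool) (j : ℕ) : Prop := decide (j % 2 = 0) = ρ

instance (ρ : Bool) (j : ℕ) : Decidable (par ρ j) := inferInstanceAs (Decidable (_ = _))

/-- both ends of the arc have parity `ρ` -/
def bth (ρ : Bool) (a w : ℕ) : Bool := decide (par ρ a ∧ par ρ (a + w))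

/-- one of the ends of the arc has parity `ρ` -/
def one (ρ : Bool) (a w : ℕ) : Bool := decide (par ρ a ∨ par ρ (a + w))

/-- the number of the ends of the arc of parity `ρ` -/
def ne (ρ : Bool) (a w : ℕ) : ℕ := (if par ρ a then 1 else 0) + (if par ρ (a + w) then 1 else 0)

/-- no condition, except that the colours below and above the arc are equal -/
def RId (w : ℕ) : Submodule (ZMod 3) (Row w × Row w) := RM 1 false false w

/-- periodic and zero at both ends -/
def RPer (w : ℕ) : Submodule (ZMod 3) (Row w × Row w) := RM 1 true false w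

/-- antiperiodic and zero at both ends -/
def RNeg (w : ℕ) : Submodule (ZMod 3) (Row w × Row w) := RM (-1) true false w

/-- periodic, and equal at both ends if both have parity `ρ` -/
def RCon (ρ : Bool) (a w : ℕ) : Submodule (ZMod 3) (Row w × Row w) := RM 1 false (bth ρ a w) w

/-- all arcs: identity -/
def cId {g : ℕ} (w : Fin g → ℕ) (i : Fin g) : Submodule (ZMod 3) (Row (w i) × Row (w i)) :=
  RId (w i)

/-- the arcs in `N` are antiperiodic, the others contracted -/
def cN (ρ : Bool) {g : ℕ} (a w : Fin g → ℕ) (N : Finset (Fin g)) (i : Fin g) :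
    Submodule (ZMod 3) (Row (w i) × Row (w i)) :=
  if i ∈ N then RNeg (w i) else RCon ρ (a i) (w i)

/-- the arc `i` is periodic and zero at the ends, the others contracted -/
def cP (ρ : Bool) {g : ℕ} (a w : Fin g → ℕ) (i : Fin g) :
    ∀ l, Submodule (ZMod 3) (Row (w l) × Row (w l)) :=
  Function.update (fun l => RCon ρ (a l) (w l)) i (RPer (w i))

/-- the rank of `S` -/
noncomputable def rk (ρ : Bool) (u v : Word) {g : ℕ} (a w : Fin g → ℕ)
    (R : ∀ i, Submodule (ZMod 3) (Row (w i) × Row (w i))) (S : Finset (Fin (nX (u ++ v)))) : ℕ :=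
  Module.finrank (ZMod 3) (VS ρ u v a w ∅ R) - Module.finrank (ZMod 3) (VS ρ u v a w S R)

/-- the geometric hypotheses for the regions of parity `r` -/
structure Geo (r : Bool) (u v : Word) {g : ℕ} (a w : Fin g → ℕ) : Prop where
  oku : Ok u 0 (wd 0 u)
  okv : Ok v (wd 0 u) 0
  ord : ∀ i l : Fin g, i < l → a i + w i ≤ a l
  le : ∀ i, a i + w i ≤ wd 0 u
  /-- no crossing is nugatory -/
  red : ∀ k : Fin (nX (u ++ v)), ¬ gs 0 (u ++ v) (ed r 0 (u ++ v) k).1 (ed r 0 (u ++ v) k).2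
  /-- the two ends of an arc are different regions -/
  nff : ∀ i, ¬ gs 0 (u ++ v) (md 0 u v (a i)) (md 0 u v (a i + w i))
  /-- the two ends of an arc have no crossing in common -/
  nf2 : ∀ (i : Fin g) (k : Fin (nX (u ++ v))),
    ¬ (gs 0 (u ++ v) (md 0 u v (a i)) (ed r 0 (u ++ v) k).1 ∧
      gs 0 (u ++ v) (md 0 u v (a i + w i)) (ed r 0 (u ++ v) k).2) ∧
    ¬ (gs 0 (u ++ v) (md 0 u v (a i)) (ed r 0 (u ++ v) k).2 ∧
      gs 0 (u ++ v) (md 0 u v (a i + w i)) (ed r 0 (u ++ v) k).1)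
  /-- two regions of parity `r` which meet different arcs are different and have no crossing in common -/
  dis : ∀ i l : Fin g, i ≠ l → ∀ s ≤ w i, ∀ t ≤ w l, par r (a i + s) → par r (a l + t) →
    ¬ gs 0 (u ++ v) (md 0 u v (a i + s)) (md 0 u v (a l + t)) ∧
    ∀ k : Fin (nX (u ++ v)), ¬ (gs 0 (u ++ v) (md 0 u v (a i + s)) (ed r 0 (u ++ v) k).1 ∧
      gs 0 (u ++ v) (md 0 u v (a l + t)) (ed r 0 (u ++ v) k).2)

end Pool.TMX
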