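import Pool.Agent.TWC.Loc

/-!
# TMX: many arcs, two abstract lemmas

`EXT`: sharp degree bound of the coefficients of a full twist in the planar basis, from the one arc
formula (an extremal argument). `INQ`: a dimension inequality for several boundary conditions.
-/

set_option autoImplicit false

namespace Pool.TMX

open LaurentPolynomial Pool.Agent.ARB Pool.Agent.Helper2 Pool.TWC

theorem coeff_T (c m : ℤ) (p : LP) : (T c * p : LP).coeff m = p.coeff (m - c) := by
  have h : (T c : LP) = AddMonoidAlgebra.single c 1 := rfl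
  rw [h, AddMonoidAlgebra.coeff_single_mul_eq_mul_coeff (m - c) (fun m' _ => by
    constructor <;> intro h <;> omega), one_mul]

theorem coeff_loop (m : ℤ) (p : LP) :
    (loopVal * p : LP).coeff m = -(p.coeff (m - 2) + p.coeff (m + 2)) := by
  have h : (loopVal * p : LP) + (T 2 * p + T (-2) * p) = 0 := by
    rw [loopVal]
    ring
  have h2 := congrArg (fun q : LP => q.coeff m) h
  rw [AddMonoidAlgebra.coeff_add, AddMonoidAlgebra.coeff_add, Finsupp.add_apply,
    Finsupp.add_apply, coeff_T, coeff_T, sub_neg_eq_add] at h2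
  have h3 : (0 : LP).coeff m = 0 := rfl
  rw [h3] at h2
  linarith

theorem coeff_loop' {τ : ℤ} (hτ : τ = 1 ∨ τ = -1) (j : ℤ) (p : LP) :
    (loopVal * p : LP).coeff (τ * j) = -(p.coeff (τ * (j - 2)) + p.coeff (τ * (j + 2))) := by
  rw [coeff_loop]
  rcases hτ with rfl | rfl
  · simp only [one_mul]
  · have e1 : (-1 : ℤ) * (j - 2) = -1 * j + 2 := by ring
    have e2 : (-1 : ℤ) * (j + 2) = -1 * j - 2 := by ring
    rw [e1, e2, add_comm]

theorem le_loop {τ d : ℤ} (hτ : τ = 1 ∨ τ = -1) {p : LP} (h : Le τ d p) :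
    Le τ (d + 2) (loopVal * p) := by
  intro j hj
  rw [coeff_loop' hτ, h _ (by omega), h _ (by omega)]
  simp

theorem le_pow {τ d : ℤ} (hτ : τ = 1 ∨ τ = -1) {p : LP} (h : Le τ d p) (l : ℕ) :
    Le τ (d + 2 * l) (loopVal ^ l * p) := by
  induction l with
  | zero => simpa using h
  | succ l ih =>
    have e : (loopVal ^ (l + 1) * p : LP) = loopVal * (loopVal ^ l * p) := by ring
    have e2 : d + 2 * ((l + 1 : ℕ) : ℤ) = (d + 2 * (l : ℤ)) + 2 := by
      push_cast
      ring
    rw [e, e2]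
    exact le_loop hτ ih

theorem top_pow {τ d : ℤ} (hτ : τ = 1 ∨ τ = -1) {p : LP} (h : Le τ d p) (l : ℕ) :
    (loopVal ^ l * p : LP).coeff (τ * (d + 2 * l)) = (-1) ^ l * p.coeff (τ * d) := by
  induction l with
  | zero => simp
  | succ l ih =>
    have e : (loopVal ^ (l + 1) * p : LP) = loopVal * (loopVal ^ l * p) := by ring
    have e2 : d + 2 * ((l + 1 : ℕ) : ℤ) = (d + 2 * (l : ℤ)) + 2 := by
      push_cast
      ring
    rw [e, coeff_loop' hτ, le_pow hτ h l (d + 2 * ((l + 1 : ℕ) : ℤ) + 2) (by rw [e2]; omega)]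
    have e3 : d + 2 * ((l + 1 : ℕ) : ℤ) - 2 = d + 2 * (l : ℤ) := by
      push_cast
      ring
    rw [e3, ih, add_zero, pow_succ]
    ring

theorem le_mono {τ d d' : ℤ} {p : LP} (h : Le τ d p) (hd : d ≤ d') : Le τ d' p :=
  fun j hj => h j (by omega)

/-- [EXT] the sharp degree bound. `I`: the planar elements `R` of `w` strands, `w - d R R'` the
number of circles of `R` closed by the mirror image of `R'`, `l R` the number of contractible circles
of the annular closure, `x R` the coefficient of `R`.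
PROOF. Let `D > 0` be the largest `j - 2 (l R - w) - dφ` with `(x R).coeff (τ j) ≠ 0`, and among the
`R` with this maximum take `R₀` with `l R₀` maximal. In the equation for `R₀` look at the degree
`D + 2 l R₀ + dφ`: the term `R₀` contributes a nonzero number, the others nothing, and the right side
nothing. -/
def St_EXT : Prop := ∀ (I : Type) [Fintype I] (w : ℕ) (dφ τ : ℤ) (d : I → I → ℕ) (l : I → ℕ)
  (x P : I → LP), (τ = 1 ∨ τ = -1) → (∀ R R', d R R' ≤ w) → (∀ R, d R R = 0) →
  (∀ R R', R ≠ R' → 0 < d R R') → (∀ R R', l R ≤ l R' + d R R') → (∀ R, Le τ dφ (P R)) →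
  (∀ R', ∑ R, loopVal ^ (w - d R R') * x R = loopVal ^ l R' * P R') →
  ∀ R, Le τ (2 * ((l R : ℤ) - w) + dφ) (x R)

theorem thm_EXT : St_EXT := by
  classical
  intro I _ w dφ τ d l x P hτ hdw hd0 hdp hl hP heq
  by_contra hcon
  push Not at hcon
  obtain ⟨R₁, hR₁⟩ := hcon
  unfold Le at hR₁
  push Not at hR₁
  obtain ⟨j₁, hj₁, hne₁⟩ := hR₁
  have hττ : τ * τ = 1 := by
    rcases hτ with rfl | rfl <;> norm_num
  set F : Finset ℤ := Finset.univ.biUnion fun R : I =>
    (x R).coeff.support.image fun m : ℤ => τ * m - 2 * ((l R : ℤ) - w) - dφ with hF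
  have hmem : ∀ (R : I) (j : ℤ), (x R).coeff (τ * j) ≠ 0 →
      j - 2 * ((l R : ℤ) - w) - dφ ∈ F := by
    intro R j hj
    rw [hF, Finset.mem_biUnion]
    refine ⟨R, Finset.mem_univ _, Finset.mem_image.2 ⟨τ * j, ?_, ?_⟩⟩
    · exact Finsupp.mem_support_iff.2 hj
    · rw [← mul_assoc, hττ, one_mul]
  have hFne : F.Nonempty := ⟨_, hmem R₁ j₁ hne₁⟩
  set D := F.max' hFne with hD
  have hDpos : 0 < D := by
    have := F.le_max' _ (hmem R₁ j₁ hne₁)
    rw [← hD] at this
    omega
  have hLe : ∀ R, Le τ (D + 2 * ((l R : ℤ) - w) + dφ) (x R) := by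
    intro R j hj
    by_contra hne
    have := F.le_max' _ (hmem R j hne)
    rw [← hD] at this
    omega
  -- elements with the maximum
  set G : Finset I := Finset.univ.filter fun R =>
    (x R).coeff (τ * (D + 2 * ((l R : ℤ) - w) + dφ)) ≠ 0 with hG
  have hGne : G.Nonempty := by
    have h1 := F.max'_mem hFne
    rw [← hD, hF, Finset.mem_biUnion] at h1
    obtain ⟨R, -, hR⟩ := h1
    rw [Finset.mem_image] at hR
    obtain ⟨m, hm, hm2⟩ := hR
    refine ⟨R, Finset.mem_filter.2 ⟨Finset.mem_univ _, ?_⟩⟩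
    have e : τ * (D + 2 * ((l R : ℤ) - w) + dφ) = m := by
      rw [← hm2]
      have : τ * (τ * m - 2 * ((l R : ℤ) - w) - dφ + 2 * ((l R : ℤ) - w) + dφ) = τ * τ * m := by
        ring
      rw [this, hττ, one_mul]
    rw [e]
    exact Finsupp.mem_support_iff.1 hm
  obtain ⟨R₀, hR₀, hmax⟩ := G.exists_max_image l hGne
  have hR₀' := (Finset.mem_filter.1 hR₀).2
  have h := congrArg (fun q : LP => q.coeff (τ * (D + 2 * (l R₀ : ℤ) + dφ))) (heq R₀)
  have hr : (loopVal ^ l R₀ * P R₀ : LP).coeff (τ * (D + 2 * (l R₀ : ℤ) + dφ)) = 0 :=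
    le_pow hτ (hP R₀) (l R₀) _ (by omega)
  rw [AddMonoidAlgebra.coeff_sum, Finset.sum_apply', hr,
    Finset.sum_eq_single R₀] at h
  · rw [hd0, Nat.sub_zero] at h
    have e : D + 2 * (l R₀ : ℤ) + dφ = (D + 2 * ((l R₀ : ℤ) - w) + dφ) + 2 * (w : ℤ) := by ring
    rw [e, top_pow hτ (hLe R₀) w] at h
    rcases neg_one_pow_eq_or ℤ w with h1 | h1
    · rw [h1, one_mul] at h
      exact hR₀' h
    · rw [h1, neg_one_mul, neg_eq_zero] at h
      exact hR₀' h
  · intro R _ hne
    have h1 := hdp R R₀ hne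
    have h2 := hl R R₀
    have h3 := hdw R R₀
    rcases Nat.lt_or_ge (l R) (l R₀ + d R R₀) with h4 | h4
    · refine le_pow hτ (hLe R) (w - d R R₀) _ ?_
      push_cast [Nat.cast_sub h3]
      omega
    · have h5 : l R = l R₀ + d R R₀ := le_antisymm h2 h4
      have h6 : (x R).coeff (τ * (D + 2 * ((l R : ℤ) - w) + dφ)) = 0 := by
        by_contra h7
        have := hmax R (Finset.mem_filter.2 ⟨Finset.mem_univ _, h7⟩)
        omega
      have e : D + 2 * (l R₀ : ℤ) + dφ =
          (D + 2 * ((l R : ℤ) - w) + dφ) + 2 * ((w - d R R₀ : ℕ) : ℤ) := by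
        push_cast [Nat.cast_sub h3]
        rw [h5]
        push_cast
        ring
      rw [e, top_pow hτ (hLe R), h6, mul_zero]
  · intro h1
    exact absurd (Finset.mem_univ _) h1

end Pool.TMX
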