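import Mathlib

/-!
# TMX: a dimension inequality for several boundary conditions
-/

set_option autoImplicit false

namespace Pool.TMX

/-- [INQ] replace the conditions `R i` by the conditions `R' i`, one for each arc.
PROOF. The kernel of `W = ⨅ comap (R i) → Π i, R i / (R i ⊓ R' i)` is contained in
`⨅ comap (R' i)`. -/
def St_INQ : Prop := ∀ (K V : Type) [Field K] [AddCommGroup V] [Module K V]
  [FiniteDimensional K V] (g : ℕ) (B : Fin g → Type) [∀ i, AddCommGroup (B i)]
  [∀ i, Module K (B i)] [∀ i, FiniteDimensional K (B i)] (W : Submodule K V)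
  (res : ∀ i, V →ₗ[K] B i) (R R' : ∀ i, Submodule K (B i)),
  Module.finrank K (W ⊓ ⨅ i, (R i).comap (res i) : Submodule K V) +
      ∑ i, Module.finrank K (R i ⊓ R' i : Submodule K (B i)) ≤
    Module.finrank K (W ⊓ ⨅ i, (R' i).comap (res i) : Submodule K V) +
      ∑ i, Module.finrank K (R i)

theorem thm_INQ : St_INQ := by
  intro K V _ _ _ _ g B _ _ _ W res R R'
  set W₁ : Submodule K V := W ⊓ ⨅ i, (R i).comap (res i) with hW₁
  have hmem : ∀ (v : W₁) (i : Fin g), res i v ∈ R i := by
    intro v i
    have h1 : (v : V) ∈ W ⊓ ⨅ i, (R i).comap (res i) := v.2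
    exact (Submodule.mem_iInf _).1 (Submodule.mem_inf.1 h1).2 i
  let φ : W₁ →ₗ[K] (∀ i, R i ⧸ (R' i).submoduleOf (R i)) :=
    LinearMap.pi fun i => (((R' i).submoduleOf (R i)).mkQ).comp
      (((res i).comp W₁.subtype).codRestrict (R i) (fun v => hmem v i))
  have h1 := LinearMap.finrank_range_add_finrank_ker φ
  have h2 : Module.finrank K (LinearMap.range φ) ≤
      Module.finrank K (∀ i, R i ⧸ (R' i).submoduleOf (R i)) := Submodule.finrank_le _
  rw [Module.finrank_pi_fintype] at h2
  have h3 : ∀ i, Module.finrank K (R i ⧸ (R' i).submoduleOf (R i)) +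
      Module.finrank K (R i ⊓ R' i : Submodule K (B i)) = Module.finrank K (R i) := by
    intro i
    have h4 := Submodule.finrank_quotient_add_finrank ((R' i).submoduleOf (R i))
    have h5 : Module.finrank K ((R' i).submoduleOf (R i)) =
        Module.finrank K (R i ⊓ R' i : Submodule K (B i)) := by
      have e : (R i ⊓ R' i : Submodule K (B i)) =
          ((R' i).submoduleOf (R i)).map (R i).subtype := by
        ext y
        simp only [Submodule.mem_inf, Submodule.mem_map, Submodule.subtype_apply]
        constructor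
        · rintro ⟨hy, hy'⟩
          exact ⟨⟨y, hy⟩, hy', rfl⟩
        · rintro ⟨z, hz, rfl⟩
          exact ⟨z.2, hz⟩
      rw [e]
      exact (LinearEquiv.finrank_eq (Submodule.equivMapOfInjective (R i).subtype
        (Submodule.injective_subtype _) _))
    rw [← h5]
    exact h4
  have h4 : Module.finrank K (LinearMap.ker φ) ≤
      Module.finrank K (W ⊓ ⨅ i, (R' i).comap (res i) : Submodule K V) := by
    have e : (LinearMap.ker φ).map W₁.subtype ≤ W ⊓ ⨅ i, (R' i).comap (res i) := by
      rintro _ ⟨v, hv, rfl⟩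
      have hv1 : (v : V) ∈ W ⊓ ⨅ i, (R i).comap (res i) := v.2
      rw [Submodule.mem_inf] at hv1
      refine Submodule.mem_inf.2 ⟨hv1.1, (Submodule.mem_iInf _).2 fun i => ?_⟩
      have h5 : φ v i = 0 := by
        have : φ v = 0 := hv
        rw [this]
        rfl
      have h6 : (((R' i).submoduleOf (R i)).mkQ) ⟨res i v, hmem v i⟩ = 0 := h5
      rw [Submodule.mkQ_apply, Submodule.Quotient.mk_eq_zero] at h6
      exact h6
    have e2 := LinearEquiv.finrank_eq (Submodule.equivMapOfInjective W₁.subtype
      (Submodule.injective_subtype _) (LinearMap.ker φ))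
    have e3 := Submodule.finrank_mono e
    omega
  have h5 : ∑ i, Module.finrank K (R i ⧸ (R' i).submoduleOf (R i)) +
      ∑ i, Module.finrank K (R i ⊓ R' i : Submodule K (B i)) = ∑ i, Module.finrank K (R i) := by
    rw [← Finset.sum_add_distrib]
    exact Finset.sum_congr rfl fun i _ => h3 i
  omega

end Pool.TMX
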