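import Pool.Agent.TMX.StD

/-!
# TMX: the contracted graph is connected
-/

set_option autoImplicit false

namespace Pool.TMX

open LaurentPolynomial Pool.Agent.ARB Pool.Agent.Helper2 Pool.ALT Pool.TWC

private theorem CNC_gs {n : ℕ} {w : Word} {x y : Loc n w} (h : R0 n w x y) : gs n w x y := by
  have h1 : pr x y ≤ gs n w :=
    le_iSup_of_le x (le_iSup_of_le y (le_iSup_of_le h le_rfl))
  exact (pr_le_iff _ _ _).1 h1

private def CNC_ev {A B : Type} (x : A ⊕ B) :
    ((A → ZMod 3) × (B → ZMod 3)) →ₗ[ZMod 3] ZMod 3 where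
  toFun p := vx p x
  map_add' p q := by cases x <;> rfl
  map_smul' c p := by cases x <;> rfl

theorem thm_CNC (h1 : St_LIF) (h2 : St_OUT) : St_CNC := by
  intro r u v g a w hG hC i₀
  obtain ⟨c1, c2, c3, c4, -, c6⟩ := h1 r u v g a w hG.oku hG.okv
  obtain ⟨o1, -, o3⟩ := h2 r u v g a w Finset.univ (cP r a w i₀)
  have hle : VS r u v a w Finset.univ (cP r a w i₀) ≤ VS r u v a w ∅ (cId w) := by
    refine o3 ∅ (cId w) (Finset.empty_subset _) fun l x hx => ?_
    by_cases hl : l = i₀
    · subst hl
      unfold cP at hx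
      rw [Function.update_self] at hx
      exact ⟨hx.1, fun h => absurd h (by decide), fun h => absurd h (by decide)⟩
    · unfold cP at hx
      rw [Function.update_of_ne hl] at hx
      exact ⟨hx.1, fun h => absurd h (by decide), fun h => absurd h (by decide)⟩
  -- the key fact
  have key : ∀ p ∈ VS r u v a w Finset.univ (cP r a w i₀), ∀ z, pa 0 (u ++ v) (im u v z) = r →
      vx p z = 0 → p = 0 := by
    intro p hp z hz h0
    obtain ⟨F, hF, rfl⟩ := c6 p (hle hp)
    have hp' := ((o1 _).1 hp).2.1
    have e1 : ∀ x y, R0 0 (u ++ v) x y → F x = F y := fun x y h => hF.2 x y (CNC_gs h)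
    have e2 : ∀ k, F (ed r 0 (u ++ v) k).1 = F (ed r 0 (u ++ v) k).2 := by
      intro k
      obtain ⟨x, y, hx, hy, hk⟩ := c2 k
      have h := hp' k (Finset.mem_univ k)
      rw [hk, c4, c4, hx, hy] at h
      exact sub_eq_zero.1 h
    have e3 := hC r (ZMod 3) F e1 e2
    have e4 : ∀ x, F x = 0 := by
      intro x
      by_cases hx : pa 0 (u ++ v) x = r
      · exact (e3 x (im u v z) hx hz).trans ((c4 F z).symm.trans h0)
      · exact hF.1 x hx
    refine Prod.ext (funext fun x => e4 _) (funext fun x => e4 _)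
  by_cases ho : one r (a i₀) (w i₀) = true
  · rw [if_pos ho]
    have hb : VS r u v a w Finset.univ (cP r a w i₀) = ⊥ := by
      refine (Submodule.eq_bot_iff _).2 fun p hp => ?_
      have h3 := ((o1 p).1 hp).2.2 i₀
      unfold cP at h3
      rw [Function.update_self] at h3
      obtain ⟨ha, hb⟩ := h3.2.1 rfl
      have hle0 := hG.le i₀
      rcases of_decide_eq_true ho with hpar | hpar
      · refine key p hp (Sum.inl (tp 0 u (a i₀))) ?_ ?_
        · rw [(c3 (a i₀)).1, (c3 (a i₀)).2.2 (by omega)]
          exact hpar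
        · exact ha
      · refine key p hp (Sum.inl (tp 0 u (a i₀ + w i₀))) ?_ ?_
        · rw [(c3 (a i₀ + w i₀)).1, (c3 (a i₀ + w i₀)).2.2 hle0]
          exact hpar
        · exact hb
    rw [hb, finrank_bot]
  · rw [if_neg ho, add_zero]
    by_cases hx : ∃ z, pa 0 (u ++ v) (im u v z) = r
    · obtain ⟨z, hz⟩ := hx
      have hinj : Function.Injective
          ((CNC_ev z).comp (VS r u v a w Finset.univ (cP r a w i₀)).subtype) := by
        rw [injective_iff_map_eq_zero]
        rintro ⟨p, hp⟩ h
        exact Subtype.ext (key p hp z hz h)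
      have := LinearMap.finrank_le_finrank_of_injective hinj
      rwa [Module.finrank_self] at this
    · have hb : VS r u v a w Finset.univ (cP r a w i₀) = ⊥ := by
        refine (Submodule.eq_bot_iff _).2 fun p hp => ?_
        obtain ⟨F, hF, rfl⟩ := c6 p (hle hp)
        have e4 : ∀ x, F x = 0 := fun x => hF.1 x fun h => by
          obtain ⟨z, rfl⟩ := c1 x
          exact hx ⟨z, h⟩
        exact Prod.ext (funext fun x => e4 _) (funext fun x => e4 _)
      rw [hb, finrank_bot]
      exact Nat.zero_le _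

end Pool.TMX
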