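import Pool.Agent.TMX.StD

/-!
# TMX: [GRP], the groups of parallel crossings meet at most one arc
-/

set_option autoImplicit false

namespace Pool.TMX

open LaurentPolynomial Pool.Agent.ARB Pool.Agent.Helper2 Pool.ALT Pool.TWC

/-- parity of a region which meets an arc -/
private theorem GRP_mt_pa (h4 : St_LIF) {r : Bool} {u v : Word} {g : ℕ} {a w : Fin g → ℕ}
    (hG : Geo r u v a w) (i : Fin g) {x : Loc 0 (u ++ v)} (h : mt r u v (a i) (w i) x) :
    pa 0 (u ++ v) x = r := by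
  obtain ⟨t, ht, hp, hg⟩ := h
  have hok : Ok (u ++ v) 0 0 := hG.oku.append hG.okv
  have hle : a i + t ≤ wd 0 u := le_trans (by omega) (hG.le i)
  have h1 := ((h4 r u v g a w hG.oku hG.okv).2.2.1 (a i + t)).2.2 hle
  rw [← pa_gs hok hg, h1]
  exact hp

/-- meeting an arc is invariant -/
private theorem GRP_mt_gs {r : Bool} {u v : Word} {a w : ℕ} {x y : Loc 0 (u ++ v)}
    (h : gs 0 (u ++ v) x y) : mt r u v a w x ↔ mt r u v a w y := by
  constructor
  · rintro ⟨t, ht, hp, hg⟩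
    exact ⟨t, ht, hp, (gs 0 (u ++ v)).trans hg h⟩
  · rintro ⟨t, ht, hp, hg⟩
    exact ⟨t, ht, hp, (gs 0 (u ++ v)).trans hg ((gs 0 (u ++ v)).symm h)⟩

/-- the ends of crossings in `S` meet at most one arc -/
private theorem GRP_key (h1 : St_FCN) (h2 : St_RKN) (h3 : St_RVF) (h4 : St_LIF) {r : Bool}
    {u v : Word} {g : ℕ} {a w : Fin g → ℕ} (hG : Geo r u v a w) (hH : Hd r u v a w)
    (S : Finset (Fin (nX (u ++ v)))) (hS : rk r u v a w (cN r a w ∅) S ≤ 1) (i j : Fin g)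
    (k k' : Fin (nX (u ++ v))) (hk : k ∈ S) (hk' : k' ∈ S) (e z : Loc 0 (u ++ v))
    (he : e = (ed r 0 (u ++ v) k).1 ∨ e = (ed r 0 (u ++ v) k).2)
    (hz : z = (ed r 0 (u ++ v) k').1 ∨ z = (ed r 0 (u ++ v) k').2)
    (hi : mt r u v (a i) (w i) e) (hj : mt r u v (a j) (w j) z) : i = j := by
  have hok : Ok (u ++ v) 0 0 := hG.oku.append hG.okv
  obtain ⟨_, _, c3, c4, ⟨crefl, csymm, ctrans⟩, c6, c7, _⟩ := h3 r u v g a w hG
  have pz : pa 0 (u ++ v) z = r := GRP_mt_pa h4 hG j hj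
  obtain ⟨p, hp, hpx⟩ := (h1 r u v g a w hG hH).1 ∅ z pz (fun i hi => absurd hi (Finset.notMem_empty i))
  obtain ⟨x', y', ex', ey', hL'⟩ := (h4 r u v g a w hG.oku hG.okv).2.1 k'
  obtain ⟨x, y, ex, ey, hL⟩ := (h4 r u v g a w hG.oku hG.okv).2.1 k
  obtain ⟨q1, q2⟩ := pa_ed (u ++ v) 0 0 r k hok
  obtain ⟨q1', q2'⟩ := pa_ed (u ++ v) 0 0 r k' hok
  have n1 : Lk r u v (k' : ℕ) p ≠ 0 := by
    rw [hL' p]
    rcases hz with hz | hz
    · have a1 : vx p x' ≠ 0 := (hpx x' (by rw [ex']; exact q1')).1 (by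
        rw [ex', ← hz]; exact crefl z)
      have a2 : vx p y' = 0 := (hpx y' (by rw [ey']; exact q2')).2 (by
        rw [ey', hz]; exact c6 k')
      rw [a2, sub_zero]
      exact a1
    · have a1 : vx p y' ≠ 0 := (hpx y' (by rw [ey']; exact q2')).1 (by
        rw [ey', ← hz]; exact crefl z)
      have a2 : vx p x' = 0 := (hpx x' (by rw [ex']; exact q1')).2 (by
        rw [ex', hz]; exact fun h => c6 k' (csymm _ _ h))
      rw [a2, zero_sub]
      exact neg_ne_zero.2 a1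
  have n2 : Lk r u v (k : ℕ) p ≠ 0 := fun h =>
    n1 ((h2 r u v g a w).2.2 (cN r a w ∅) S hS k hk k' hk'
      (((h2 r u v g a w).2.1 hG hH).1 ∅ k) (((h2 r u v g a w).2.1 hG hH).1 ∅ k') p hp h)
  rw [hL p] at n2
  have n3 : vx p x ≠ 0 ∨ vx p y ≠ 0 := by
    by_contra hc
    rw [not_or, not_not, not_not] at hc
    exact n2 (by rw [hc.1, hc.2, sub_zero])
  have hmain : ∀ e' : Loc 0 (u ++ v), (e' = (ed r 0 (u ++ v) k).1 ∨ e' = (ed r 0 (u ++ v) k).2) →
      mt r u v (a j) (w j) e' → i = j := by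
    intro e' he' hj'
    rcases he with he | he
    · rcases he' with he' | he'
      · exact c3 i j e hi (by rw [he, ← he']; exact hj')
      · exact c4 i j k (by rw [← he]; exact hi) (by rw [← he']; exact hj')
    · rcases he' with he' | he'
      · exact (c4 j i k (by rw [← he']; exact hj') (by rw [← he]; exact hi)).symm
      · exact c3 i j e hi (by rw [he, ← he']; exact hj')
  rcases n3 with n3 | n3
  · have b1 : rV u v a w z (im u v x) := by
      by_contra hc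
      exact n3 ((hpx x (by rw [ex]; exact q1)).2 hc)
    have b2 := (c7 j z (im u v x) pz (by rw [ex]; exact q1) b1).1 hj
    exact hmain (im u v x) (Or.inl ex) b2
  · have b1 : rV u v a w z (im u v y) := by
      by_contra hc
      exact n3 ((hpx y (by rw [ey]; exact q2)).2 hc)
    have b2 := (c7 j z (im u v y) pz (by rw [ey]; exact q2) b1).1 hj
    exact hmain (im u v y) (Or.inr ey) b2

/-- an idempotent from a function on the regions -/
private theorem GRP_eps (h4 : St_LIF) (h5 : St_OUT) {r : Bool}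
    {u v : Word} {g : ℕ} {a w : Fin g → ℕ} (hG : Geo r u v a w)
    (S : Finset (Fin (nX (u ++ v)))) (i : Fin g) (F : Loc 0 (u ++ v) → ZMod 3)
    (hF : RF r u v F) (hid : ∀ x, F x * F x = F x)
    (hS : ∀ k ∈ S, F (ed r 0 (u ++ v) k).1 = F (ed r 0 (u ++ v) k).2)
    (hv : ∀ l, ∀ t ≤ w l, par r (a l + t) → F (md 0 u v (a l + t)) = (if l = i then 1 else 0)) :
    ∃ ε ∈ VS r u v a w S (cId w), ε * ε = ε ∧
      ∀ l, ∀ t ≤ w l, par r (a l + t) →
        ε.1 (tp 0 u (a l + t)) = (if l = i then 1 else 0) ∧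
        ε.2 (bo (wd 0 u) v (a l + t)) = (if l = i then 1 else 0) := by
  obtain ⟨_, d2, d3, d4, d5, _⟩ := h4 r u v g a w hG.oku hG.okv
  have m0 := d5 F hF
  have m1 := ((h5 r u v g a w ∅ (cId w)).1 (li u v F)).1 m0
  refine ⟨li u v F, ((h5 r u v g a w S (cId w)).1 (li u v F)).2 ⟨m1.1, fun k hk => ?_, m1.2.2⟩, ?_,
    fun l t ht hp => ⟨?_, ?_⟩⟩
  · obtain ⟨x, y, ex, ey, hL⟩ := d2 k
    rw [hL, d4, d4, ex, ey, hS k hk, sub_self]
  · exact Prod.ext (funext fun x => hid _) (funext fun x => hid _)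
  · have e1 := d4 F (Sum.inl (tp 0 u (a l + t)))
    rw [(d3 (a l + t)).1, hv l t ht hp] at e1
    exact e1
  · have e1 := d4 F (Sum.inr (bo (wd 0 u) v (a l + t)))
    rw [(d3 (a l + t)).2.1, hv l t ht hp] at e1
    exact e1

/-- [GRP] -/
theorem thm_GRP (h1 : St_FCN) (h2 : St_RKN) (h3 : St_RVF) (h4 : St_LIF) (h5 : St_OUT) :
    St_GRP := by
  classical
  intro r u v g a w hG hH S hS i
  have hok : Ok (u ++ v) 0 0 := hG.oku.append hG.okv
  obtain ⟨_, _, c3, _⟩ := h3 r u v g a w hG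
  obtain ⟨j, hj⟩ : ∃ j : Fin g, ∀ i, i ≠ j → ∀ k ∈ S,
      ¬ mt r u v (a i) (w i) (ed r 0 (u ++ v) k).1 ∧
      ¬ mt r u v (a i) (w i) (ed r 0 (u ++ v) k).2 := by
    by_cases hex : ∃ (j : Fin g) (k' : Fin (nX (u ++ v))) (z : Loc 0 (u ++ v)), k' ∈ S ∧
        (z = (ed r 0 (u ++ v) k').1 ∨ z = (ed r 0 (u ++ v) k').2) ∧ mt r u v (a j) (w j) z
    · obtain ⟨j, k', z, hk', hz, hj⟩ := hex
      refine ⟨j, fun i hij k hk => ⟨fun hm => hij ?_, fun hm => hij ?_⟩⟩
      · exact GRP_key h1 h2 h3 h4 hG hH S hS i j k k' hk hk' _ z (Or.inl rfl) hz hm hj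
      · exact GRP_key h1 h2 h3 h4 hG hH S hS i j k k' hk hk' _ z (Or.inr rfl) hz hm hj
    · refine ⟨i, fun l _ k hk => ⟨fun hm => hex ⟨l, k, _, hk, Or.inl rfl, hm⟩,
        fun hm => hex ⟨l, k, _, hk, Or.inr rfl, hm⟩⟩⟩
  have hmd : ∀ l, ∀ t ≤ w l, par r (a l + t) → mt r u v (a l) (w l) (md 0 u v (a l + t)) :=
    fun l t ht hp => ⟨t, ht, hp, (gs 0 (u ++ v)).refl _⟩
  by_cases hij : i = j
  · subst hij
    refine GRP_eps h4 h5 hG S i
      (fun x => if pa 0 (u ++ v) x = r ∧ ∀ l, l ≠ i → ¬ mt r u v (a l) (w l) x then 1 else 0)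
      ⟨fun x hx => if_neg fun h => hx h.1, fun x y hxy => ?_⟩ (fun x => ?_) (fun k hk => ?_)
      (fun l t ht hp => ?_)
    · show (if pa 0 (u ++ v) x = r ∧ ∀ l, l ≠ i → ¬ mt r u v (a l) (w l) x then (1 : ZMod 3) else 0)
        = if pa 0 (u ++ v) y = r ∧ ∀ l, l ≠ i → ¬ mt r u v (a l) (w l) y then 1 else 0
      have e1 : (pa 0 (u ++ v) x = r ∧ ∀ l, l ≠ i → ¬ mt r u v (a l) (w l) x) ↔
          (pa 0 (u ++ v) y = r ∧ ∀ l, l ≠ i → ¬ mt r u v (a l) (w l) y) := by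
        rw [pa_gs hok hxy]
        constructor
        · exact fun h => ⟨h.1, fun l hl hm => h.2 l hl ((GRP_mt_gs hxy).2 hm)⟩
        · exact fun h => ⟨h.1, fun l hl hm => h.2 l hl ((GRP_mt_gs hxy).1 hm)⟩
      by_cases hc : pa 0 (u ++ v) x = r ∧ ∀ l, l ≠ i → ¬ mt r u v (a l) (w l) x
      · rw [if_pos hc, if_pos (e1.1 hc)]
      · rw [if_neg hc, if_neg fun h => hc (e1.2 h)]
    · show (if pa 0 (u ++ v) x = r ∧ ∀ l, l ≠ i → ¬ mt r u v (a l) (w l) x then (1 : ZMod 3) else 0)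
        * (if pa 0 (u ++ v) x = r ∧ ∀ l, l ≠ i → ¬ mt r u v (a l) (w l) x then 1 else 0)
        = if pa 0 (u ++ v) x = r ∧ ∀ l, l ≠ i → ¬ mt r u v (a l) (w l) x then 1 else 0
      split_ifs
      · exact one_mul 1
      · exact zero_mul 0
    · obtain ⟨q1, q2⟩ := pa_ed (u ++ v) 0 0 r k hok
      exact (if_pos ⟨q1, fun l hl => (hj l hl k hk).1⟩).trans
        (if_pos ⟨q2, fun l hl => (hj l hl k hk).2⟩).symm
    · have hm := hmd l t ht hp
      by_cases hl : l = i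
      · rw [if_pos hl]
        exact if_pos ⟨GRP_mt_pa h4 hG l hm, fun l' hl' hm' =>
          hl' ((c3 l' l _ hm' hm).trans hl)⟩
      · rw [if_neg hl]
        exact if_neg fun h => h.2 l hl hm
  · refine GRP_eps h4 h5 hG S i
      (fun x => if mt r u v (a i) (w i) x then 1 else 0)
      ⟨fun x hx => if_neg fun h => hx (GRP_mt_pa h4 hG i h), fun x y hxy => ?_⟩ (fun x => ?_)
      (fun k hk => ?_) (fun l t ht hp => ?_)
    · show (if mt r u v (a i) (w i) x then (1 : ZMod 3) else 0) =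
        if mt r u v (a i) (w i) y then 1 else 0
      by_cases hc : mt r u v (a i) (w i) x
      · rw [if_pos hc, if_pos ((GRP_mt_gs hxy).1 hc)]
      · rw [if_neg hc, if_neg fun h => hc ((GRP_mt_gs hxy).2 h)]
    · show (if mt r u v (a i) (w i) x then (1 : ZMod 3) else 0) *
        (if mt r u v (a i) (w i) x then 1 else 0) = if mt r u v (a i) (w i) x then 1 else 0
      split_ifs
      · exact one_mul 1
      · exact zero_mul 0
    · exact (if_neg (hj i hij k hk).1).trans (if_neg (hj i hij k hk).2).symm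
    · have hm := hmd l t ht hp
      by_cases hl : l = i
      · rw [if_pos hl]
        subst hl
        exact if_pos hm
      · rw [if_neg hl]
        exact if_neg fun h => hl (c3 l i _ hm h)

end Pool.TMX
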