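import Pool.Agent.TMX.StD

/-!
# TMX: local regions of `u`, `v` and `u ++ v` (module LIF)
-/

set_option autoImplicit false

namespace Pool.TMX

open LaurentPolynomial Pool.Agent.ARB Pool.Agent.Helper2 Pool.ALT Pool.TWC

private theorem LIF_cov : ∀ (u : Word) (n : ℕ) (v : Word) (z : Loc n (u ++ v)),
    (∃ x, iu n u v x = z) ∨ ∃ y, iv n u v y = z
  | [], _, _, z => Or.inr ⟨z, rfl⟩
  | s :: u, n, v, z => by
      rcases z with j | z
      · exact Or.inl ⟨(Sum.inl j : Fin (n + 1) ⊕ Loc (n - s.k.inn + s.k.out) u), rfl⟩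
      · rcases LIF_cov u (n - s.k.inn + s.k.out) v z with ⟨x, hx⟩ | ⟨y, hy⟩
        · refine Or.inl ⟨(Sum.inr x : Fin (n + 1) ⊕ Loc (n - s.k.inn + s.k.out) u), ?_⟩
          show (Sum.inr (iu (n - s.k.inn + s.k.out) u v x) :
            Fin (n + 1) ⊕ Loc (n - s.k.inn + s.k.out) (u ++ v)) = Sum.inr z
          rw [hx]
        · refine Or.inr ⟨y, ?_⟩
          show (Sum.inr (iv (n - s.k.inn + s.k.out) u v y) :
            Fin (n + 1) ⊕ Loc (n - s.k.inn + s.k.out) (u ++ v)) = Sum.inr z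
          rw [hy]

private theorem LIF_gs {n : ℕ} {w : Word} {x y : Loc n w} (h : R0 n w x y) : gs n w x y := by
  have h1 : pr x y ≤ gs n w :=
    le_iSup_of_le x (le_iSup_of_le y (le_iSup_of_le h le_rfl))
  exact (pr_le_iff _ _ _).1 h1

private theorem LIF_lk (hE : St_EMB) (ρ : Bool) (u v : Word) (k : Fin (nX (u ++ v))) :
    ∃ x y, im u v x = (ed ρ 0 (u ++ v) k).1 ∧ im u v y = (ed ρ 0 (u ++ v) k).2 ∧
      ∀ p : Lv u v, Lk ρ u v (k : ℕ) p = vx p x - vx p y := by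
  obtain ⟨-, -, -, -, -, e6, -, e8⟩ := hE
  by_cases h : (k : ℕ) < nX u
  · have h1 := (e6 ρ u v 0 k).1 h
    refine ⟨Sum.inl (ed ρ 0 u ⟨k, h⟩).1, Sum.inl (ed ρ 0 u ⟨k, h⟩).2, ?_, ?_, fun p => ?_⟩
    · rw [h1]
      rfl
    · rw [h1]
      rfl
    · show (if h : (k : ℕ) < nX u then p.1 (ed ρ 0 u ⟨k, h⟩).1 - p.1 (ed ρ 0 u ⟨k, h⟩).2
        else _) = _
      rw [dif_pos h]
      rfl
  · have h2 : (k : ℕ) - nX u < nX v := by
      have h3 : (k : ℕ) < nX u + nX v := lt_of_lt_of_eq k.isLt (e8 u v)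
      omega
    have h1 := (e6 ρ u v 0 k).2 h2 (not_lt.1 h)
    refine ⟨Sum.inr (ed ρ (wd 0 u) v ⟨(k : ℕ) - nX u, h2⟩).1,
      Sum.inr (ed ρ (wd 0 u) v ⟨(k : ℕ) - nX u, h2⟩).2, ?_, ?_, fun p => ?_⟩
    · rw [h1]
      rfl
    · rw [h1]
      rfl
    · show (if h : (k : ℕ) < nX u then p.1 (ed ρ 0 u ⟨k, h⟩).1 - p.1 (ed ρ 0 u ⟨k, h⟩).2
        else if h : (k : ℕ) - nX u < nX v then
          p.2 (ed ρ (wd 0 u) v ⟨(k : ℕ) - nX u, h⟩).1 - p.2 (ed ρ (wd 0 u) v ⟨(k : ℕ) - nX u, h⟩).2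
        else 0) = _
      rw [dif_neg h, dif_pos h2]
      rfl

/-- [LIF] -/
theorem thm_LIF (h1 : Pool.TWC.St_EMB) : St_LIF := by
  intro ρ u v g a w hu hv
  obtain ⟨e1, -, e3, e4, e5, e6, e7, e8⟩ := id h1
  have hok : Ok (u ++ v) 0 0 := hu.append hv
  refine ⟨fun z => ?_, fun k => LIF_lk h1 ρ u v k, fun j => ⟨(e1 u v 0 j).1, (e1 u v 0 j).2,
    fun hj => ?_⟩, fun F x => ?_, fun F hF => ?_, fun p hp => ?_⟩
  · rcases LIF_cov u 0 v z with ⟨x, hx⟩ | ⟨y, hy⟩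
    · exact ⟨Sum.inl x, hx⟩
    · exact ⟨Sum.inr y, hy⟩
  · rw [← (e1 u v 0 j).1, (e3 u v 0).1]
    exact pa_tp u 0 (wd 0 u) j hu hj
  · rcases x with x | x <;> rfl
  · -- `li F ∈ VS`
    obtain ⟨hF1, hF2⟩ := hF
    refine Submodule.mem_inf.2 ⟨Submodule.mem_inf.2 ⟨⟨⟨fun x hx => ?_, fun x hx => ?_⟩,
      ⟨fun x y h => ?_, fun x y h => ?_⟩, fun j _ _ => ?_⟩, ?_⟩, ?_⟩
    · exact hF1 _ (by rw [(e3 u v 0).1 x]; exact hx)
    · exact hF1 _ (by rw [(e3 u v 0).2 x]; exact hx)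
    · exact hF2 _ _ (LIF_gs ((e5 u v 0).1 x y h))
    · exact hF2 _ _ (LIF_gs ((e5 u v 0).2 x y h))
    · show F (iv 0 u v (bo (wd 0 u) v j)) = F (iu 0 u v (tp 0 u j))
      rw [(e1 u v 0 j).1, (e1 u v 0 j).2]
    · exact (Submodule.mem_iInf _).2 fun k => (Submodule.mem_iInf _).2 fun hk =>
        absurd hk (Finset.notMem_empty k)
    · refine (Submodule.mem_iInf _).2 fun i => ?_
      refine ⟨fun t _ _ => ?_, fun h => absurd h Bool.false_ne_true,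
        fun h => absurd h Bool.false_ne_true⟩
      show F (iv 0 u v (bo (wd 0 u) v (a i + t.val))) = 1 * F (iu 0 u v (tp 0 u (a i + t.val)))
      rw [(e1 u v 0 _).1, (e1 u v 0 _).2, one_mul]
  · -- `p = li F`
    obtain ⟨hp1, hp2⟩ := Submodule.mem_inf.1 hp
    obtain ⟨hp3, -⟩ := Submodule.mem_inf.1 hp1
    obtain ⟨⟨a1, a2⟩, ⟨a3, a4⟩, a5⟩ := hp3
    have hrow : ∀ j ≤ wd 0 u, p.2 (bo (wd 0 u) v j) = p.1 (tp 0 u j) := by
      intro j hj
      by_cases hI : Ins a w j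
      · obtain ⟨i, hi1, hi2⟩ := hI
        have h2 := (Submodule.mem_iInf _).1 hp2 i
        have h3 := h2.1 ⟨j - a i, by omega⟩ (by show 0 < j - a i; omega)
          (by show j - a i < w i; omega)
        have h4 : p.2 (bo (wd 0 u) v (a i + (j - a i))) = 1 * p.1 (tp 0 u (a i + (j - a i))) := h3
        rw [one_mul, show a i + (j - a i) = j by omega] at h4
        exact h4
      · exact a5 j hj hI
    obtain ⟨F, hF1, hF2⟩ := e7 u v 0 (ZMod 3) p.1 p.2 hrow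
    refine ⟨F, ⟨fun z hz => ?_, fun z z' h => ?_⟩, ?_⟩
    · rcases LIF_cov u 0 v z with ⟨x, rfl⟩ | ⟨y, rfl⟩
      · rw [hF1]
        exact a1 x (by rw [← (e3 u v 0).1 x]; exact hz)
      · rw [hF2]
        exact a2 y (by rw [← (e3 u v 0).2 y]; exact hz)
    · have h2 : gs 0 (u ++ v) ≤ Setoid.ker F := by
        refine iSup_le fun x => iSup_le fun y => iSup_le fun h => (pr_le_iff _ _ _).2 ?_
        show F x = F y
        rcases e4 u v 0 x y h with ⟨x', y', h', rfl, rfl⟩ | ⟨x', y', h', rfl, rfl⟩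
        · rw [hF1, hF1, a3 x' y' h']
        · rw [hF2, hF2, a4 x' y' h']
      exact h2 h
    · refine Prod.ext (funext fun x => ?_) (funext fun y => ?_)
      · exact (hF1 x).symm
      · exact (hF2 y).symm

end Pool.TMX
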