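import Pool.Agent.TMX.StD
import Pool.Agent.TMW.LNR

/-!
# TMX: classes of a family of rank functions (LN3)
-/

set_option autoImplicit false

namespace Pool.TMX

open LaurentPolynomial Pool.Agent.ARB Pool.Agent.Helper2 Pool.ALT Pool.TWC

private theorem LN3_add {N : ℕ} {r : Finset (Fin N) → ℕ} (hr : RkF r) (h1 : ∀ e, r {e} = 1)
    {S : Finset (Fin N)} {e e' : Fin N} (he' : e' ∈ S) (h : r {e, e'} ≤ 1) :
    r (insert e S) ≤ r S := by
  have h2 := hr.sub S {e, e'}
  have h3 : S ∪ {e, e'} = insert e S := by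
    ext x
    simp only [Finset.mem_union, Finset.mem_insert, Finset.mem_singleton]
    constructor
    · rintro (h | h | h)
      · exact Or.inr h
      · exact Or.inl h
      · exact Or.inr (h ▸ he')
    · rintro (h | h)
      · exact Or.inr (Or.inl h)
      · exact Or.inl h
  have h4 : 1 ≤ r (S ∩ {e, e'}) := by
    have := hr.mono {e'} (S ∩ {e, e'}) (Finset.singleton_subset_iff.2 (by simp [he']))
    rw [h1] at this
    exact this
  rw [h3] at h2
  omega

private theorem LN3_all {N : ℕ} {r : Finset (Fin N) → ℕ} (hr : RkF r) (h1 : ∀ e, r {e} = 1)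
    (e₀ : Fin N) (U : Finset (Fin N)) (h : ∀ e ∈ U, r {e, e₀} ≤ 1) : r (insert e₀ U) ≤ 1 := by
  induction U using Finset.induction_on with
  | empty => exact (h1 e₀).le
  | insert e U _ ih =>
    have h2 : insert e₀ (insert e U) = insert e (insert e₀ U) := Finset.insert_comm _ _ _
    rw [h2]
    refine (LN3_add hr h1 (Finset.mem_insert_self e₀ U) (h e (Finset.mem_insert_self e U))).trans
      (ih fun e' he' => h e' (Finset.mem_insert_of_mem he'))

theorem thm_LN3 : St_LN3 := by
  classical
  intro N ι R r r' hR hr hr' h0 h1 h1' hp S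
  have hE : Equivalence (fun e e' : Fin N => ∀ i, R i {e, e'} ≤ 1) := by
    refine ⟨fun e i => ?_, fun {e e'} h i => ?_, fun {a b c} hab hbc i => ?_⟩
    · rw [Finset.pair_eq_singleton]
      exact (h0 i e).le
    · rw [Finset.pair_comm]
      exact h i
    · have h2 : R i (insert a {b, c}) ≤ R i {b, c} :=
        LN3_add (hR i) (h0 i) (e' := b) (by simp) (hab i)
      have h3 : R i {a, c} ≤ R i (insert a {b, c}) := by
        refine (hR i).mono _ _ ?_
        intro x hx
        simp only [Finset.mem_insert, Finset.mem_singleton] at hx ⊢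
        tauto
      exact h3.trans (h2.trans (hbc i))
  have h := Pool.TMW.LNR_gen hr hr' h1 h1' hE (fun e e' h => (hp e e' h).1)
    (fun e e' h => (hp e e' h).2) S
  have hset : (Finset.univ.filter (fun T : Finset (Fin N) => T ≠ ∅ ∧ ∀ i, R i T ≤ 1)) =
      Finset.univ.filter (fun T : Finset (Fin N) =>
        T.Nonempty ∧ ∀ e ∈ T, ∀ e' ∈ T, ∀ i, R i {e, e'} ≤ 1) := by
    ext T
    simp only [Finset.mem_filter, Finset.mem_univ, true_and]
    constructor
    · rintro ⟨h2, h3⟩
      refine ⟨Finset.nonempty_iff_ne_empty.2 h2, fun e he e' he' i => ?_⟩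
      refine ((hR i).mono _ _ ?_).trans (h3 i)
      intro x hx
      rw [Finset.mem_insert, Finset.mem_singleton] at hx
      rcases hx with rfl | rfl
      · exact he
      · exact he'
    · rintro ⟨⟨e₀, he₀⟩, h3⟩
      refine ⟨Finset.nonempty_iff_ne_empty.1 ⟨e₀, he₀⟩, fun i => ?_⟩
      have h4 := LN3_all (hR i) (h0 i) e₀ T (fun e he => h3 e he e₀ he₀ i)
      rw [Finset.insert_eq_of_mem he₀] at h4
      exact h4
  rw [hset]
  exact h

end Pool.TMX
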