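import Pool.Agent.TMX.StD

/-!
# TMX: regions, ends of arcs and groups (module RVF)
-/

set_option autoImplicit false

namespace Pool.TMX

open LaurentPolynomial Pool.Agent.ARB Pool.Agent.Helper2 Pool.ALT Pool.TWC

/-- [RVF] -/
theorem thm_RVF (h1 : St_LIF) : St_RVF := by
  intro r u v g a w hG
  have hok : Ok (u ++ v) 0 0 := hG.oku.append hG.okv
  have hpm : ∀ j ≤ wd 0 u, pa 0 (u ++ v) (md 0 u v j) = decide (j % 2 = 0) := fun j hj =>
    (((h1 r u v g a w hG.oku hG.okv).2.2.1) j).2.2 hj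
  have tr : ∀ {x y z}, gs 0 (u ++ v) x y → gs 0 (u ++ v) y z → gs 0 (u ++ v) x z :=
    fun h h' => (gs 0 (u ++ v)).trans h h'
  have sy : ∀ {x y}, gs 0 (u ++ v) x y → gs 0 (u ++ v) y x := fun h => (gs 0 (u ++ v)).symm h
  -- (1)
  have c1 : ∀ i x, pa 0 (u ++ v) x = r → kap u v (a i) (w i) x → mt r u v (a i) (w i) x := by
    intro i x hx h
    have hle := hG.le i
    rcases h with h | h
    · refine ⟨0, Nat.zero_le _, ?_, h⟩
      show decide ((a i + 0) % 2 = 0) = r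
      rw [Nat.add_zero, ← hpm (a i) (by omega), pa_gs hok h, hx]
    · refine ⟨w i, le_rfl, ?_, h⟩
      show decide ((a i + w i) % 2 = 0) = r
      rw [← hpm (a i + w i) hle, pa_gs hok h, hx]
  -- (2)
  have c2 : ∀ i x y, gs 0 (u ++ v) x y → (kap u v (a i) (w i) x ↔ kap u v (a i) (w i) y) := by
    intro i x y h
    constructor
    · rintro (h2 | h2)
      · exact Or.inl (tr h2 h)
      · exact Or.inr (tr h2 h)
    · rintro (h2 | h2)
      · exact Or.inl (tr h2 (sy h))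
      · exact Or.inr (tr h2 (sy h))
  -- (3)
  have c3 : ∀ i l x, mt r u v (a i) (w i) x → mt r u v (a l) (w l) x → i = l := by
    rintro i l x ⟨s, hs, hps, hgs⟩ ⟨t, ht, hpt, hgt⟩
    by_contra hil
    exact (hG.dis i l hil s hs t ht hps hpt).1 (tr hgs (sy hgt))
  -- (4)
  have c4 : ∀ i l (k : Fin (nX (u ++ v))), mt r u v (a i) (w i) (ed r 0 (u ++ v) k).1 →
      mt r u v (a l) (w l) (ed r 0 (u ++ v) k).2 → i = l := by
    rintro i l k ⟨s, hs, hps, hgs⟩ ⟨t, ht, hpt, hgt⟩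
    by_contra hil
    exact (hG.dis i l hil s hs t ht hps hpt).2 k ⟨hgs, hgt⟩
  -- (6)
  have c6 : ∀ k : Fin (nX (u ++ v)),
      ¬ rV u v a w (ed r 0 (u ++ v) k).1 (ed r 0 (u ++ v) k).2 := by
    rintro k (h | ⟨i, h | h, h' | h'⟩)
    · exact hG.red k h
    · exact hG.red k (tr (sy h) h')
    · exact (hG.nf2 i k).1 ⟨h, h'⟩
    · exact (hG.nf2 i k).2 ⟨h', h⟩
    · exact hG.red k (tr (sy h) h')
  -- (7)
  have c7 : ∀ i x y, pa 0 (u ++ v) x = r → pa 0 (u ++ v) y = r → rV u v a w x y →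
      mt r u v (a i) (w i) x → mt r u v (a i) (w i) y := by
    rintro i x y hx hy (h | ⟨l, hl, hl'⟩) hm
    · obtain ⟨s, hs, hps, hgs⟩ := hm
      exact ⟨s, hs, hps, tr hgs h⟩
    · have h2 := c3 i l x hm (c1 l x hx hl)
      subst h2
      exact c1 i y hy hl'
  have csy : ∀ x y, rV u v a w x y → rV u v a w y x := by
    rintro x y (h | ⟨i, h, h'⟩)
    · exact Or.inl (sy h)
    · exact Or.inr ⟨i, h', h⟩
  refine ⟨c1, c2, c3, c4, ⟨fun x => Or.inl ((gs 0 (u ++ v)).refl x), csy, ?_⟩, c6,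
    fun i x y hx hy h => ⟨c7 i x y hx hy h, c7 i y x hy hx (csy x y h)⟩, ?_⟩
  · rintro x y z hx hy hz (h | ⟨i, h, h'⟩) (k | ⟨l, k, k'⟩)
    · exact Or.inl (tr h k)
    · exact Or.inr ⟨l, (c2 l x y h).2 k, k'⟩
    · exact Or.inr ⟨i, h, (c2 i y z k).1 h'⟩
    · have h2 := c3 i l y (c1 i y hy h') (c1 l y hy k)
      subst h2
      exact Or.inr ⟨i, h, k'⟩
  · intro k
    by_contra hcon
    rw [not_or] at hcon
    obtain ⟨hc1, hc2⟩ := hcon
    push Not at hc1 hc2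
    obtain ⟨i, hi⟩ := hc1
    obtain ⟨l, hl⟩ := hc2
    obtain ⟨p1, p2⟩ := pa_ed (u ++ v) 0 0 r k hok
    have h2 := c4 i l k (c1 i _ p1 hi) (c1 l _ p2 hl)
    subst h2
    exact c6 k (Or.inr ⟨i, hi, hl⟩)

end Pool.TMX
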