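import Pool.Agent.TMX.StD

/-! TMX: [SUP] antiperiodic and periodic functions. -/

set_option autoImplicit false

namespace Pool.TMX

open LaurentPolynomial Pool.Agent.ARB Pool.Agent.Helper2 Pool.ALT Pool.TWC

private theorem SUP_z3 : ∀ a : ZMod 3, a ≠ 0 → a * a = 1 := by decide

private theorem SUP_z3' : ∀ a b : ZMod 3, (b ≠ 0 → a ≠ 0) → a * (a * b) = b := by decide

private theorem SUP_z3'' : ∀ a b : ZMod 3, a * (b - a * (a * b)) = 0 := by decide

private theorem SUP_mul {A B : Type} (p q : (A → ZMod 3) × (B → ZMod 3)) (x : A ⊕ B) :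
    vx (p * q) x = vx p x * vx q x := by
  cases x <;> rfl

private theorem SUP_sub {A B : Type} (p q : (A → ZMod 3) × (B → ZMod 3)) (x : A ⊕ B) :
    vx (p - q) x = vx p x - vx q x := by
  cases x <;> rfl

private theorem SUP_add {A B : Type} (p q : (A → ZMod 3) × (B → ZMod 3)) (x : A ⊕ B) :
    vx (p + q) x = vx p x + vx q x := by
  cases x <;> rfl

private theorem SUP_ext {A B : Type} {p q : (A → ZMod 3) × (B → ZMod 3)}
    (h : ∀ x : A ⊕ B, vx p x = vx q x) : p = q := by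
  refine Prod.ext (funext fun a => h (Sum.inl a)) (funext fun b => h (Sum.inr b))

private theorem SUP_max {A B : Type} [Finite A] [Finite B]
    (P Q : Submodule (ZMod 3) ((A → ZMod 3) × (B → ZMod 3)))
    (h1 : ∀ p ∈ P, ∀ q ∈ P, p * q ∈ Q) (h2 : ∀ p ∈ P, ∀ q ∈ Q, p * q ∈ P) :
    ∃ p ∈ P, ∀ q ∈ P, ∀ x, vx q x ≠ 0 → vx p x ≠ 0 := by
  classical
  haveI := Fintype.ofFinite A
  haveI := Fintype.ofFinite B
  haveI : Fintype P := Fintype.ofFinite P
  obtain ⟨p, -, hp⟩ := Finset.exists_max_image (Finset.univ : Finset P)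
    (fun p : P => (Finset.univ.filter fun x : A ⊕ B => vx p.1 x ≠ 0).card) ⟨0, Finset.mem_univ _⟩
  refine ⟨p.1, p.2, fun q hq x hx hpx => ?_⟩
  have hr : p.1 + q - q * (p.1 * p.1) ∈ P :=
    P.sub_mem (P.add_mem p.2 hq) (h2 q hq _ (h1 _ p.2 _ p.2))
  have hv : ∀ y, vx (p.1 + q - q * (p.1 * p.1)) y =
      vx p.1 y + vx q y - vx q y * (vx p.1 y * vx p.1 y) := fun y => by
    rw [SUP_sub, SUP_add, SUP_mul, SUP_mul]
  have hlt : (Finset.univ.filter fun y : A ⊕ B => vx p.1 y ≠ 0).card <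
      (Finset.univ.filter fun y : A ⊕ B => vx (p.1 + q - q * (p.1 * p.1)) y ≠ 0).card := by
    refine Finset.card_lt_card ⟨fun y hy => ?_, fun hsub => ?_⟩
    · rw [Finset.mem_filter] at hy ⊢
      refine ⟨Finset.mem_univ _, ?_⟩
      rw [hv, SUP_z3 _ hy.2, mul_one, add_sub_cancel_right]
      exact hy.2
    · have hxm : x ∈ Finset.univ.filter
          (fun y : A ⊕ B => vx (p.1 + q - q * (p.1 * p.1)) y ≠ 0) := by
        rw [Finset.mem_filter]
        refine ⟨Finset.mem_univ _, ?_⟩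
        rw [hv, hpx, zero_add, zero_mul, mul_zero, sub_zero]
        exact hx
      exact (Finset.mem_filter.1 (hsub hxm)).2 hpx
  exact absurd (hp ⟨_, hr⟩ (Finset.mem_univ _)) (not_le.2 hlt)

theorem thm_SUP : St_SUP := by
  intro A B _ _ P Q h1 h2
  obtain ⟨p₀, hp₀, hmax⟩ := SUP_max P Q h1 h2
  have hf : ∀ q ∈ Q, LinearMap.mulLeft (ZMod 3) p₀ q ∈ P := fun q hq => h2 p₀ hp₀ q hq
  set f : Q →ₗ[ZMod 3] P := (LinearMap.mulLeft (ZMod 3) p₀).restrict hf with hfdef
  have hfv : ∀ q : Q, (f q : (A → ZMod 3) × (B → ZMod 3)) = p₀ * q.1 := fun q => rfl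
  have hsurj : Function.Surjective f := by
    intro q
    refine ⟨⟨p₀ * q.1, h1 p₀ hp₀ q.1 q.2⟩, Subtype.ext ?_⟩
    rw [hfv]
    refine SUP_ext fun x => ?_
    rw [SUP_mul, SUP_mul]
    exact SUP_z3' _ _ fun h => hmax q.1 q.2 x h
  have hdim : Module.finrank (ZMod 3) P + Module.finrank (ZMod 3) (LinearMap.ker f) =
      Module.finrank (ZMod 3) Q := by
    rw [← LinearMap.finrank_range_add_finrank_ker f, LinearMap.range_eq_top.2 hsurj, finrank_top]
  refine ⟨⟨p₀, hp₀, hmax⟩, ?_, ?_⟩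
  · rintro x ⟨q, hq, hqx⟩ hP
    have hk : q - p₀ * (p₀ * q) ∈ Q :=
      Q.sub_mem hq (h1 p₀ hp₀ _ (h2 p₀ hp₀ q hq))
    have hker : (⟨q - p₀ * (p₀ * q), hk⟩ : Q) ∈ LinearMap.ker f := by
      rw [LinearMap.mem_ker]
      refine Subtype.ext ?_
      rw [hfv]
      refine SUP_ext fun y => ?_
      rw [SUP_mul, SUP_sub, SUP_mul, SUP_mul, SUP_z3'']
      cases y <;> rfl
    have hne : (⟨_, hker⟩ : LinearMap.ker f) ≠ 0 := by
      intro h
      have h' : q - p₀ * (p₀ * q) = 0 := congrArg (fun z : LinearMap.ker f => (z.1.1)) h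
      have h'' : vx (q - p₀ * (p₀ * q)) x = 0 := by
        rw [h']
        cases x <;> rfl
      rw [SUP_sub, SUP_mul, hP p₀ hp₀, zero_mul, sub_zero] at h''
      exact hqx h''
    have hpos : 0 < Module.finrank (ZMod 3) (LinearMap.ker f) :=
      Module.finrank_pos_iff_exists_ne_zero.2 ⟨_, hne⟩
    omega
  · intro h
    have hker : LinearMap.ker f = ⊥ := by
      rw [LinearMap.ker_eq_bot']
      intro q hq
      refine Subtype.ext (SUP_ext fun x => ?_)
      by_contra hx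
      have hx' : vx q.1 x ≠ 0 := by
        intro h0
        apply hx
        rw [h0]
        cases x <;> rfl
      obtain ⟨p, hp, hpx⟩ := h x ⟨q.1, q.2, hx'⟩
      have h0 : vx (p₀ * q.1) x = 0 := by
        have : p₀ * q.1 = 0 := by
          rw [← hfv, hq]
          rfl
        rw [this]
        cases x <;> rfl
      rw [SUP_mul] at h0
      exact mul_ne_zero (hmax p hp x hpx) hx' h0
    rw [hker, finrank_bot, add_zero] at hdim
    exact hdim

end Pool.TMX
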