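import Pool.Agent.TMX.DefD

/-!
# TMX: statements, part D (groups, additivity, classes)

Every statement has its complete proof in the docstring. `EMB`, `RKF`, `CRV`, ... are the theorems of `TWC` (`TWC/EMB.lean`, ...; see
the files `TWC/StA.lean`, ..., `StD.lean`, `StL.lean`). Values of `p : Lv u v` are written `vx p x`, `x : Loc 0 u ⊕ Loc (wd 0 u) v` (a piece
below or above the line); `im x : Loc 0 (u ++ v)` is the local region of the whole diagram. All spaces `VS ρ u v a w S R` are subspaces of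
the ring `Lv u v` (pointwise product). In the proofs `X_S = finrank VS S cId`.
-/

set_option autoImplicit false

namespace Pool.TMX

open LaurentPolynomial Pool.Agent.ARB Pool.Agent.Helper2 Pool.ALT Pool.TWC

/-! ### abstract lemmas -/

/-- the value of a pair of functions -/
def vx {A B : Type} (p : (A → ZMod 3) × (B → ZMod 3)) : A ⊕ B → ZMod 3 := Sum.elim p.1 p.2

/-- [SUP] antiperiodic (`P`) and periodic (`Q`) functions.
PROOF. `t ^ 2 = 1` for `t ≠ 0` in `ZMod 3`. `P P P ⊆ P`, as `P P ⊆ Q`, `P Q ⊆ P`. (1) For `p, q ∈ P` the function `p + q - p p q` is in `P` and nonzero where `p` or `q` is nonzero (`p ≠ 0`: `p + q - q = p`;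
`p = 0`: `q`). Take `p ∈ P` with the largest number of nonzero values (finitely many `p`; or `Set.Finite`, `exists_max_image`): if `q x ≠ 0 = p x` for some `q ∈ P` then `p + q - p p q` has more. So there is `p₀` as in (1).
(2) Multiplication by `p₀` maps `Q` to `P` linearly and is onto: `q ∈ P` is `p₀ (p₀ q)`, `p₀ q ∈ Q`. So `finrank P ≤ finrank Q`, and `<` iff the kernel `{q ∈ Q | p₀ q = 0}` is not zero (`LinearMap.finrank_range_add_finrank_ker`).
Second claim: given `x`, `q ∈ Q`, `q x ≠ 0`, `P` zero at `x`: `q - p₀ (p₀ q) ∈ Q` (`p₀ q ∈ P`, product of two elements of `P`) is in the kernel (`p₀ - p₀ p₀ p₀ = 0`) and its value at `x` is `q x ≠ 0`. (3) Third claim: if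
`finrank P < finrank Q` there is `q ≠ 0` in the kernel, `q x ≠ 0` for some `x`, then `p₀ x = 0`, so all of `P` is zero at `x` by (1): contradiction to the hypothesis. -/
def St_SUP : Prop := ∀ (A B : Type) [Finite A] [Finite B]
  (P Q : Submodule (ZMod 3) ((A → ZMod 3) × (B → ZMod 3))),
  (∀ p ∈ P, ∀ q ∈ P, p * q ∈ Q) → (∀ p ∈ P, ∀ q ∈ Q, p * q ∈ P) →
  (∃ p ∈ P, ∀ q ∈ P, ∀ x, vx q x ≠ 0 → vx p x ≠ 0) ∧
  (∀ x, (∃ q ∈ Q, vx q x ≠ 0) → (∀ p ∈ P, vx p x = 0) →
    Module.finrank (ZMod 3) P < Module.finrank (ZMod 3) Q) ∧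
  ((∀ x, (∃ q ∈ Q, vx q x ≠ 0) → ∃ p ∈ P, vx p x ≠ 0) →
    Module.finrank (ZMod 3) P = Module.finrank (ZMod 3) Q)

/-- [MV] two independent changes of conditions.
PROOF. For each of the four spaces `W`: `E` maps `W` to itself (`p ∈ V11`: `E p ∈ V10`, so `E (E p) = E p ∈ V11`; ...), so `finrank W = finrank (W.map E) + finrank (W.map (1 - E))` (`W` is the direct sum of `W ⊓ ker E = W.map (1 - E)` and
`W.map E`; `LinearMap.finrank_range_add_finrank_ker` for `E` restricted to `W`). `V11.map E = V10.map E` (`E p = E (E p)`, `E p ∈ V10`, and conversely), `V11.map (1 - E) = V01.map (1 - E)`, `V01.map E = V00.map E`,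
`V10.map (1 - E) = V00.map (1 - E)`. Add up. -/
def St_MV : Prop := ∀ (K V : Type) [Field K] [AddCommGroup V] [Module K V] [FiniteDimensional K V]
  (E : V →ₗ[K] V) (V11 V10 V01 V00 : Submodule K V), (∀ x, E (E x) = E x) →
  (∀ p ∈ V11, E p ∈ V10 ∧ p - E p ∈ V01) → (∀ p ∈ V10, E p ∈ V11 ∧ p - E p ∈ V00) →
  (∀ p ∈ V01, E p ∈ V00 ∧ p - E p ∈ V11) → (∀ p ∈ V00, E p ∈ V01 ∧ p - E p ∈ V10) →
  Module.finrank K V11 + Module.finrank K V00 = Module.finrank K V10 + Module.finrank K V01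

/-- [CD1] PROOF. First claim: `ker φ` has codimension at most one in `W` (see `RKF_ker` in `TWC/RKF.lean`), and `W ⊓ ker φ < W`. Second claim: `Submodule.finrank_sup_add_finrank_inf_eq` for `P` and `Q ⊓ K'`:
`P ⊓ (Q ⊓ K') = P ⊓ K'`, `P ⊔ (Q ⊓ K') ≤ Q`. -/
def St_CD1 : Prop := ∀ (K V : Type) [Field K] [AddCommGroup V] [Module K V] [FiniteDimensional K V],
  (∀ (W : Submodule K V) (φ : V →ₗ[K] K), (∃ h ∈ W, φ h ≠ 0) →
    Module.finrank K (W ⊓ LinearMap.ker φ : Submodule K V) + 1 = Module.finrank K W) ∧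
  ∀ P Q K' : Submodule K V, P ≤ Q →
    Module.finrank K P + Module.finrank K (Q ⊓ K' : Submodule K V) ≤
      Module.finrank K Q + Module.finrank K (P ⊓ K' : Submodule K V)

open Classical in
/-- [LN3] classes of a family of rank functions.
PROOF. As [LIN] (`TWC/LIN.lean`, copy it). `e ~ e'` iff `R i {e, e'} ≤ 1` for all `i`: an equivalence relation (each `R i` is a loopless rank function). For `T ≠ ∅`: all `R i T ≤ 1` iff all elements of `T` are equivalent. For a class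
`C` the sum of `(-1)^|T|` over the nonempty `T ⊆ C` is `-1`. So the sum is `-m`, `m` the number of classes. `c` the number of classes which meet `S`: `r S ≤ c`, as `r {e, e'} ≤ 1` for `e ~ e'`, and `r' univ ≤ r' S + (m - c)`. -/
def St_LN3 : Prop := ∀ (N : ℕ) (ι : Type) (R : ι → Finset (Fin N) → ℕ)
  (r r' : Finset (Fin N) → ℕ), (∀ i, RkF (R i)) → RkF r → RkF r' → (∀ i e, R i {e} = 1) →
  (∀ e, r {e} = 1) → (∀ e, r' {e} = 1) →
  (∀ e e', (∀ i, R i {e, e'} ≤ 1) → r {e, e'} ≤ 1 ∧ r' {e, e'} ≤ 1) →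
  ∀ S : Finset (Fin N),
    (∑ T ∈ Finset.univ.filter (fun T : Finset (Fin N) => T ≠ ∅ ∧ ∀ i, R i T ≤ 1),
      (-1 : ℤ) ^ T.card) + r S + r' Finset.univ ≤ r' S

/-! ### pieces, regions, groups -/

/-- the local region of a piece below (`inl`) or above (`inr`) the line -/
def im (u v : Word) : Loc 0 u ⊕ Loc (wd 0 u) v → Loc 0 (u ++ v) := Sum.elim (iu 0 u v) (iv 0 u v)

/-- a function on the regions of parity `ρ` -/
def RF (ρ : Bool) (u v : Word) (F : Loc 0 (u ++ v) → ZMod 3) : Prop :=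
  (∀ x, pa 0 (u ++ v) x ≠ ρ → F x = 0) ∧ ∀ x y, gs 0 (u ++ v) x y → F x = F y

/-- as a pair of colourings -/
def li (u v : Word) (F : Loc 0 (u ++ v) → ZMod 3) : Lv u v :=
  (fun x => F (iu 0 u v x), fun y => F (iv 0 u v y))

/-- `x` is in one of the two end regions of the arc `[a, a + w]` -/
def kap (u v : Word) (a w : ℕ) (x : Loc 0 (u ++ v)) : Prop :=
  gs 0 (u ++ v) (md 0 u v a) x ∨ gs 0 (u ++ v) (md 0 u v (a + w)) x

/-- the region of `x` meets the arc `[a, a + w]` at a gap of parity `ρ` -/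
def mt (ρ : Bool) (u v : Word) (a w : ℕ) (x : Loc 0 (u ++ v)) : Prop :=
  ∃ t ≤ w, par ρ (a + t) ∧ gs 0 (u ++ v) (md 0 u v (a + t)) x

/-- the regions after the identification of the two ends of each arc (for `x`, `y` of the same parity) -/
def rV (u v : Word) {g : ℕ} (a w : Fin g → ℕ) (x y : Loc 0 (u ++ v)) : Prop :=
  gs 0 (u ++ v) x y ∨ ∃ i, kap u v (a i) (w i) x ∧ kap u v (a i) (w i) y

/-- [LIF] PROOF (from EMB). (1) `im` covers `Loc 0 (u ++ v)`: `FAC_cov` in `TWC/FAC.lean` (induction on `u`). (2) see `loo_lk` in `TWC/LOO.lean`: [EMB] (6), (8). (3) [EMB] (1), `pa_tp`, `pa_bo`, [EMB] (3). (4) `p = li F`: supports by [EMB] (3),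
touching pairs by [EMB] (5) (`R0 x y → gs x y`, see `loo_gs`), gaps by [EMB] (1); `R i = RId`. Conversely `p ∈ VS ∅ cId` has `p.2 (bo j) = p.1 (tp j)` for all `j ≤ wd 0 u` (`Out`, or `RId` for `j = a i + t`, `0 < t < w i`); [EMB] (7) gives `F`; `F` is constant on
touching pairs by [EMB] (4), so on the classes of `gs` (`iSup_le`, `pr_le_iff`), zero off the parity by (1) and [EMB] (3). -/
def St_LIF : Prop := ∀ (ρ : Bool) (u v : Word) (g : ℕ) (a w : Fin g → ℕ), Ok u 0 (wd 0 u) →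
  Ok v (wd 0 u) 0 →
  (∀ z : Loc 0 (u ++ v), ∃ x, im u v x = z) ∧
  (∀ k : Fin (nX (u ++ v)), ∃ x y, im u v x = (ed ρ 0 (u ++ v) k).1 ∧
    im u v y = (ed ρ 0 (u ++ v) k).2 ∧ ∀ p : Lv u v, Lk ρ u v (k : ℕ) p = vx p x - vx p y) ∧
  (∀ j : ℕ, im u v (Sum.inl (tp 0 u j)) = md 0 u v j ∧
    im u v (Sum.inr (bo (wd 0 u) v j)) = md 0 u v j ∧
    (j ≤ wd 0 u → pa 0 (u ++ v) (md 0 u v j) = decide (j % 2 = 0))) ∧
  (∀ F x, vx (li u v F) x = F (im u v x)) ∧
  (∀ F, RF ρ u v F → li u v F ∈ VS ρ u v a w ∅ (cId w)) ∧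
  ∀ p ∈ VS ρ u v a w ∅ (cId w), ∃ F, RF ρ u v F ∧ p = li u v F

/-- [OUT] PROOF. (1) unfold (`Submodule.mem_iInf`, `mem_comap`). (2) the supports of `Out`, [EMB] (3). (3) `Submodule.mem_iInf`. -/
def St_OUT : Prop := ∀ (ρ : Bool) (u v : Word) (g : ℕ) (a w : Fin g → ℕ)
  (S : Finset (Fin (nX (u ++ v)))) (R : ∀ i, Submodule (ZMod 3) (Row (w i) × Row (w i))),
  (∀ p : Lv u v, p ∈ VS ρ u v a w S R ↔ p ∈ Out ρ u v a w ∧
    (∀ k ∈ S, Lk ρ u v (k : ℕ) p = 0) ∧ ∀ i, res u v (a i) (w i) p ∈ R i) ∧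
  (∀ p ∈ Out ρ u v a w, ∀ x, pa 0 (u ++ v) (im u v x) ≠ ρ → vx p x = 0) ∧
  ∀ (S' : Finset (Fin (nX (u ++ v)))) (R' : ∀ i, Submodule (ZMod 3) (Row (w i) × Row (w i))),
    S' ⊆ S → (∀ i, R i ≤ R' i) → VS ρ u v a w S R ≤ VS ρ u v a w S' R'

/-- [MUL] products.
PROOF (from OUT). (1) `Out` is closed under products (pointwise). (2) crossings: `Lk p = 0`, `Lk q = 0` give `Lk (p q) = 0` (unfold `Lk`: if `s = s'`, `t = t'` then `s t = s' t'`). (3) arcs: `(p q).2 t = s s' (p q).1 t`; zero at the ends if one is; equal at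
the ends if both are. (4) unfold `RM`. -/
def St_MUL : Prop :=
  (∀ (ρ : Bool) (u v : Word) (g : ℕ) (a w : Fin g → ℕ), ∀ p ∈ Out ρ u v a w,
    ∀ q ∈ Out ρ u v a w, p * q ∈ Out ρ u v a w) ∧
  (∀ (ρ : Bool) (u v : Word) (k : ℕ) (p q : Lv u v), Lk ρ u v k p = 0 → Lk ρ u v k q = 0 →
    Lk ρ u v k (p * q) = 0) ∧
  (∀ (ρ : Bool) (u v : Word) (g : ℕ) (a w : Fin g → ℕ) (S : Finset (Fin (nX (u ++ v))))
    (s s' : Fin g → ZMod 3) (z z' c c' : Fin g → Bool),
    ∀ p ∈ VS ρ u v a w S (fun i => RM (s i) (z i) (c i) (w i)),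
    ∀ q ∈ VS ρ u v a w S (fun i => RM (s' i) (z' i) (c' i) (w i)),
      p * q ∈ VS ρ u v a w S (fun i => RM (s i * s' i) (z i || z' i) (c i && c' i) (w i))) ∧
  ∀ (s : ZMod 3) (z z' c c' : Bool) (w : ℕ), (z' = true → z = true) →
    (c' = true → c = true ∨ z = true) → RM s z c w ≤ RM s z' c' w

/-- [RVF] PROOF (`gs` is an equivalence relation and preserves `pa` (`pa_gs`); `md j` has the parity of `j` [LIF]). (1) `kap x` with `pa x = r`: the gap `a` or `a + w` has parity `r`. (2) `kap x`, `kap y`, ... (3) `mt i x`, `mt l x` contradict `Geo.dis`. (4) `Geo.dis` for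
`(i, l)`. (5) `rV`: reflexive, symmetric; transitive: `gs`, `kap`: `kap` is invariant under `gs`; `kap i x, kap i y, kap l y, kap l z`: `i = l` by (1), (3). (6) `rV` at a crossing: `gs`: `Geo.red`; `kap i` at both ends: both in the same end region: `Geo.red`; in different ones:
`Geo.nf2`. (7) `rV x y`, `mt i x`: `gs`: clear; `kap l x`: `mt l x` by (1), so `l = i`, `kap i y`, `mt i y` by (1). (8) `kap i` at one end and `kap l` at the other end, `i ≠ l`: (1), (4). -/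
def St_RVF : Prop := ∀ (r : Bool) (u v : Word) (g : ℕ) (a w : Fin g → ℕ), Geo r u v a w →
  (∀ i x, pa 0 (u ++ v) x = r → kap u v (a i) (w i) x → mt r u v (a i) (w i) x) ∧
  (∀ i x y, gs 0 (u ++ v) x y → (kap u v (a i) (w i) x ↔ kap u v (a i) (w i) y)) ∧
  (∀ i l x, mt r u v (a i) (w i) x → mt r u v (a l) (w l) x → i = l) ∧
  (∀ i l (k : Fin (nX (u ++ v))), mt r u v (a i) (w i) (ed r 0 (u ++ v) k).1 →
    mt r u v (a l) (w l) (ed r 0 (u ++ v) k).2 → i = l) ∧
  ((∀ x, rV u v a w x x) ∧ (∀ x y, rV u v a w x y → rV u v a w y x) ∧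
    ∀ x y z, pa 0 (u ++ v) x = r → pa 0 (u ++ v) y = r → pa 0 (u ++ v) z = r →
      rV u v a w x y → rV u v a w y z → rV u v a w x z) ∧
  (∀ k : Fin (nX (u ++ v)), ¬ rV u v a w (ed r 0 (u ++ v) k).1 (ed r 0 (u ++ v) k).2) ∧
  (∀ i x y, pa 0 (u ++ v) x = r → pa 0 (u ++ v) y = r → rV u v a w x y →
    (mt r u v (a i) (w i) x ↔ mt r u v (a i) (w i) y)) ∧
  ∀ k : Fin (nX (u ++ v)), (∀ i, ¬ kap u v (a i) (w i) (ed r 0 (u ++ v) k).1) ∨
    (∀ i, ¬ kap u v (a i) (w i) (ed r 0 (u ++ v) k).2)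

/-! ### functions with prescribed support -/

/-- the hypothesis on single arcs: no loss of dimension -/
def Hd (r : Bool) (u v : Word) {g : ℕ} (a w : Fin g → ℕ) : Prop := ∀ i,
  Module.finrank (ZMod 3) (VS r u v a w ∅ (Function.update (cId w) i (RNeg (w i)))) =
    Module.finrank (ZMod 3) (VS r u v a w ∅ (Function.update (cId w) i (RPer (w i))))

/-- [STR] antiperiodic functions without zeros outside of the ends of the arc.
PROOF (from SUP, MUL, LIF, RVF). `P = VS ∅ (update cId i RNeg)`, `Q = VS ∅ (update cId i RPer)` (write them as `VS ∅ (fun l => RM (if l = i then -1 else 1) (decide (l = i)) false (w l))`, ...); `P P ⊆ Q`, `P Q ⊆ P` [MUL]. [SUP] (1): `p₀ ∈ P` with the largest support. Let `x` be as in the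
claim, `F z = 1` if `gs (im x) z`, else `0`: `RF F` and `F (md (a i)) = F (md (a i + w i)) = 0`, so `li F ∈ Q` ([LIF]), `vx (li F) x = 1`. If `p₀ x = 0` then all of `P` vanishes at `x` and [SUP] (2) contradicts `Hd`. -/
def St_STR : Prop := ∀ (r : Bool) (u v : Word) (g : ℕ) (a w : Fin g → ℕ), Geo r u v a w →
  Hd r u v a w → ∀ i, ∃ p ∈ VS r u v a w ∅ (Function.update (cId w) i (RNeg (w i))),
    ∀ x, pa 0 (u ++ v) (im u v x) = r → ¬ kap u v (a i) (w i) (im u v x) → vx p x ≠ 0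

/-- [PRN] PROOF (from STR, MUL, LIF). Induction on `N` (`Finset.induction_on`): `N = ∅`: `li F`, `F = 1` on parity `r`, `0` off (`RF`). `insert i N`: the product of the function for `N` with that of [STR] for `i`; conditions by [MUL] (signs: `1 * -1` at `i`, `s * 1` at the other arcs). -/
def St_PRN : Prop := ∀ (r : Bool) (u v : Word) (g : ℕ) (a w : Fin g → ℕ), Geo r u v a w →
  Hd r u v a w → ∀ N : Finset (Fin g),
  ∃ p ∈ VS r u v a w ∅ (fun i => RM (if i ∈ N then -1 else 1) (decide (i ∈ N)) false (w i)),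
    ∀ x, pa 0 (u ++ v) (im u v x) = r → (∀ i ∈ N, ¬ kap u v (a i) (w i) (im u v x)) → vx p x ≠ 0

/-- [FCN] functions supported on one vertex of the contracted graph.
PROOF (from PRN, MUL, LIF, RVF, OUT). `P` the function of [PRN] for `N`. Case A: `x₀` is in no `kap i`: `rV x₀ y ↔ gs x₀ y`; `F y = 1` if `gs x₀ y`, else `0`; `p = P * li F`. At an arc `i ∈ N`: signs `-1 * 1`, zero at the ends. At `i ∉ N`: periodic; `F` is zero at
`md (a i)`, `md (a i + w i)`, so the values at the ends are both `0`. Case B: `kap l x₀`; `l ∉ N`. `c = P.1 (tp (a l))`, `c' = P.1 (tp (a l + w l))`, `F y = c` if `gs (md (a l)) y`, `c'` if `gs (md (a l + w l)) y` (not both: `Geo.nff`), else `0`. `RF F`: if `a l` has not parity `r` then `c = 0`. `p = P * li F`.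
For `y` of parity `r`: `rV x₀ y ↔ kap l y` ([RVF]: `kap i x₀` only for `i = l`). If `gs (md (a l)) y`: `a l` has parity `r`, `c ≠ 0` (no `i ∈ N` has `kap i (md (a l))`, as `mt l` and `mt i` exclude each other) and `P y ≠ 0` in the same way. At an arc `i ≠ l`, `i ∉ N`: both end values `0` (`¬ kap l (md (a i))` if `a i` has parity `r`, otherwise
`p` is zero there by `Out`). At `l`, both ends of parity `r`: the values are `c c = 1`, `c' c' = 1` (nonzero squares in `ZMod 3`). At `i ∈ N`: `-1`, zero at the ends.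
Second part (`cP i₀`): `li F` with `F y = 1` if `pa y = r` and `rV x₀ y`: at `i₀` it is zero at both ends, since `rV x₀ (md (a i₀))` would give `kap i₀ x₀` (`gs`: clear; `kap i x₀`, `kap i (md (a i₀))`: `i = i₀` by [RVF] (3)); at `i ≠ i₀` with both ends of parity `r`: `rV x₀ (md (a i)) ↔ rV x₀ (md (a i + w i))` (`rV` holds between the two ends). -/
def St_FCN : Prop := ∀ (r : Bool) (u v : Word) (g : ℕ) (a w : Fin g → ℕ), Geo r u v a w →
  Hd r u v a w →
  (∀ (N : Finset (Fin g)) (x₀ : Loc 0 (u ++ v)), pa 0 (u ++ v) x₀ = r →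
    (∀ i ∈ N, ¬ kap u v (a i) (w i) x₀) → ∃ p ∈ VS r u v a w ∅ (cN r a w N),
      ∀ x, pa 0 (u ++ v) (im u v x) = r → (rV u v a w x₀ (im u v x) → vx p x ≠ 0) ∧
        (¬ rV u v a w x₀ (im u v x) → vx p x = 0)) ∧
  ∀ (i₀ : Fin g) (x₀ : Loc 0 (u ++ v)), pa 0 (u ++ v) x₀ = r →
    ¬ kap u v (a i₀) (w i₀) x₀ → ∃ p ∈ VS r u v a w ∅ (cP r a w i₀),
      ∀ x, pa 0 (u ++ v) (im u v x) = r → (rV u v a w x₀ (im u v x) → vx p x ≠ 0) ∧
        (¬ rV u v a w x₀ (im u v x) → vx p x = 0)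

/-! ### rank functions -/

/-- [RKN] PROOF (from TWC.RKF, OUT, FCN, LIF, RVF). (1) `VS S R = VS ∅ R ⊓ ⨅ k ∈ S, ker Lk`: [RKF] with `Base = VS ∅ R`. (2) `x = (ed k).1`, `y = (ed k).2`: by [RVF] (8) one of them, say `x`, is in no `kap i`; [FCN] for `x₀ = x`: `p x ≠ 0`, `p y = 0` by [RVF] (6); `Lk p = ± p x ≠ 0`; last claim of [RKF]. The
same for `cP`. (3) `VS {k} R` and `VS {k'} R` both contain `VS {k, k'} R`, and `finrank VS {k} = finrank VS ∅ - 1 = finrank VS {k'}`, `finrank VS {k, k'} ≥ finrank VS ∅ - 1` (`rk {k, k'} ≤ rk S` by `mono`): so the three are equal (`Submodule.eq_of_le_of_finrank_eq`). -/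
def St_RKN : Prop := ∀ (r : Bool) (u v : Word) (g : ℕ) (a w : Fin g → ℕ),
  (∀ R, RkF (rk r u v a w R)) ∧
  (Geo r u v a w → Hd r u v a w → (∀ N k, rk r u v a w (cN r a w N) {k} = 1) ∧
    ∀ i k, rk r u v a w (cP r a w i) {k} = 1) ∧
  ∀ R (S : Finset (Fin (nX (u ++ v)))), rk r u v a w R S ≤ 1 → ∀ k ∈ S, ∀ k' ∈ S,
    rk r u v a w R {k} = 1 → rk r u v a w R {k'} = 1 → ∀ p ∈ VS r u v a w ∅ R,
      Lk r u v (k : ℕ) p = 0 → Lk r u v (k' : ℕ) p = 0

/-! ### groups and additivity -/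

/-- the arcs are separated by idempotents which are constant along the crossings in `S` -/
def Sep (r : Bool) (u v : Word) {g : ℕ} (a w : Fin g → ℕ) (S : Finset (Fin (nX (u ++ v)))) :
    Prop := ∀ i, ∃ ε ∈ VS r u v a w S (cId w), ε * ε = ε ∧
  ∀ l, ∀ t ≤ w l, par r (a l + t) →
    ε.1 (tp 0 u (a l + t)) = (if l = i then 1 else 0) ∧
    ε.2 (bo (wd 0 u) v (a l + t)) = (if l = i then 1 else 0)

/-- [GRP] PROOF (from FCN, RKN, RVF, LIF). CLAIM: there is `j` (if `g ≥ 1`) such that for all `i ≠ j` and `k ∈ S` neither end of `ed r k` satisfies `mt i`. Suppose `mt i` holds at an end of `k ∈ S` and `mt j` at an end `z` of `k' ∈ S`; we show `i = j`. [FCN] with `N = ∅`, `x₀ = z`: `p ∈ VS ∅ (cN ∅)` with support the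
`rV`-class of `z`; `Lk' p ≠ 0` by [RVF] (6), so `Lk p ≠ 0` by [RKN] (3), so an end `y` of `k` has `p ≠ 0`, `rV z y`, `mt j y` by [RVF] (7). With [RVF] (3) (same end) or (4) (different ends; use it for `(i, l)` or `(l, i)`) `i = j`.
Given `j` take `ε_i = li F`, `F x = 1` if `mt i x`, else `0`, for `i ≠ j`, and for `i = j`: `F x = 1` if `pa x = r` and no `mt l x` with `l ≠ j`. (`mt` is invariant under `gs` and implies `pa = r`.) Values at the gaps of arc `l`: `mt l (md (a l + t))`, and `mt i` only for `i = l` by [RVF] (3). Crossings in `S`: the values at both ends are `0` (`i ≠ j`)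
resp. `1`. If `S = ∅` any `j`. -/
def St_GRP : Prop := ∀ (r : Bool) (u v : Word) (g : ℕ) (a w : Fin g → ℕ), Geo r u v a w →
  Hd r u v a w → ∀ S, rk r u v a w (cN r a w ∅) S ≤ 1 → Sep r u v a w S

/-- [ADD] additivity.
PROOF (from MV, MUL, OUT, LIF). For `I : Finset (Fin g)` let `R_I l = R l` for `l ∈ I`, `RId` otherwise. Claim: `finrank VS S R_I + |I| X_S = ∑_(i ∈ I) finrank VS S (update cId i (R i)) + X_S`; induction on `I`, `insert i I`: [MV] with `E =` multiplication by `ε_i` of `Sep`, `V11 = VS S R_(insert i I)`,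
`V10 = VS S (update cId i (R i))`, `V01 = VS S R_I`, `V00 = VS S cId`. For `p ∈ VS S R'` (any `R'`): `res_i (ε_i p) = res_i p` (at gaps of parity `r` the factor is `1`, at the others `p` is zero: `Out`, `pa_tp`, `pa_bo`, `Geo.le`), `res_l (ε_i p) = 0` for `l ≠ i`; `ε_i p ∈ Out`, joined at `S` [MUL]. So `ε_i p ∈ VS S R''` as soon as `R'' i = R' i`,
and `p - ε_i p ∈ VS S R''` as soon as `R'' l = R' l` for all `l ≠ i`. -/
def St_ADD : Prop := ∀ (r : Bool) (u v : Word) (g : ℕ) (a w : Fin g → ℕ), Geo r u v a w →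
  ∀ S, Sep r u v a w S → ∀ R : (∀ i, Submodule (ZMod 3) (Row (w i) × Row (w i))),
  Module.finrank (ZMod 3) (VS r u v a w S R) + g * Module.finrank (ZMod 3) (VS r u v a w S (cId w)) =
    ∑ i, Module.finrank (ZMod 3) (VS r u v a w S (Function.update (cId w) i (R i))) +
      Module.finrank (ZMod 3) (VS r u v a w S (cId w))

/-- [ON1] PROOF (from CD1, LIF, RVF, OUT). `W = VS ∅ cId`, `φ p = p.1 (tp (a i))`, `φ' p = p.1 (tp (a i + w i))`, `F` the indicator of the region of `md (a i)`, `F'` that of `md (a i + w i)`. `VS ∅ (update cId i RPer) = W ⊓ ker φ ⊓ ker φ'`. If `a i` has parity `r`: `φ (li F) = 1` and `φ' (li F) = 0` (`Geo.nff`); otherwise `φ = 0` on `W`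
(`Out`). The same for `φ'`. `VS ∅ (update cId i RCon) = W ⊓ ker (φ - φ')` if both have parity `r` (`(φ - φ') (li F) = 1`), `= W` otherwise. -/
def St_ON1 : Prop := ∀ (r : Bool) (u v : Word) (g : ℕ) (a w : Fin g → ℕ), Geo r u v a w → ∀ i,
  Module.finrank (ZMod 3) (VS r u v a w ∅ (Function.update (cId w) i (RPer (w i)))) +
    ne r (a i) (w i) = Module.finrank (ZMod 3) (VS r u v a w ∅ (cId w)) ∧
  Module.finrank (ZMod 3) (VS r u v a w ∅ (Function.update (cId w) i (RCon r (a i) (w i)))) +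
    (if bth r (a i) (w i) = true then 1 else 0) =
      Module.finrank (ZMod 3) (VS r u v a w ∅ (cId w))

/-- [DIM] PROOF (from ADD, GRP, ON1). `Sep ∅` by GRP (`rk ∅ = 0`). ADD for `S = ∅`, `R = cN N`: `finrank VS ∅ (cN N) + g X = ∑_i (X - d_i) + X`, `d_i = ne_i` for `i ∈ N` (`Hd`, ON1), `d_i = [bth_i]` for `i ∉ N`. The same for `cP i`: `RPer` and `RNeg` have the same dimension. -/
def St_DIM : Prop := ∀ (r : Bool) (u v : Word) (g : ℕ) (a w : Fin g → ℕ), Geo r u v a w →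
  Hd r u v a w →
  (∀ N : Finset (Fin g), Module.finrank (ZMod 3) (VS r u v a w ∅ (cN r a w N)) +
    ∑ i, (if i ∈ N then ne r (a i) (w i) else if bth r (a i) (w i) = true then 1 else 0) =
      Module.finrank (ZMod 3) (VS r u v a w ∅ (cId w))) ∧
  ∀ i, Module.finrank (ZMod 3) (VS r u v a w ∅ (cP r a w i)) =
    Module.finrank (ZMod 3) (VS r u v a w ∅ (cN r a w {i}))

/-! ### exactness and the extra class -/

/-- [EXA] PROOF (from SUP, MUL, LIF, OUT, RVF, STR, FCN, RKN). [SUP] (3) for `P = VS S (update cId i RNeg)`, `Q = VS S (update cId i RPer)` (`P P ⊆ Q`, `P Q ⊆ P` by [MUL]). Let `q ∈ Q`, `q x ≠ 0`; `z = im x`, `pa z = r`; `q ∈ VS ∅ cId`, `q = li F'` [LIF], so `q` is constant on regions and `¬ kap i z`. Case A: no `k ∈ S` has an end in the region of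
`z`: `p = p_i * li F`, `F` the indicator of the region of `z`, `p_i` from [STR]: in `P`, `p x ≠ 0`. Case B: `k₀ ∈ S` with one end `z₁`, `gs z z₁`, other end `y` (`¬ rV z₁ y` by [RVF] (6)). `q (y) = q (z₁) ≠ 0` (as `Lk₀ q = 0`), so `¬ kap i y`. [FCN] with `N = {i}` for `x₀ = z` and for `x₀ = y`: `p₁`, `p₂ ∈ VS ∅ (cN {i})`, `p₁ ≠ 0` on `z₁`, `= 0` on `y`; `p₂ = 0` on
`z₁` and on `x`, `≠ 0` on `y`. So `Lk₀ p₁ ≠ 0`, `Lk₀ p₂ ≠ 0`; `p = p₁ - c p₂`, `c = Lk₀ p₁ / Lk₀ p₂`, has `Lk₀ p = 0`, so `Lk p = 0` for all `k ∈ S` by [RKN] (3), (2); `p x = p₁ x ≠ 0`; `VS S (cN {i}) ≤ P` [OUT] (`RCon ≤ RId`). -/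
def St_EXA : Prop := ∀ (r : Bool) (u v : Word) (g : ℕ) (a w : Fin g → ℕ), Geo r u v a w →
  Hd r u v a w → ∀ (S : Finset (Fin (nX (u ++ v)))) (i : Fin g),
  rk r u v a w (cN r a w {i}) S ≤ 1 →
  Module.finrank (ZMod 3) (VS r u v a w S (Function.update (cId w) i (RNeg (w i)))) =
    Module.finrank (ZMod 3) (VS r u v a w S (Function.update (cId w) i (RPer (w i))))

/-- [XTR] PROOF (from SUP, MUL, LIF, OUT, RVF). `E₀ = {k | neither end of ed r k satisfies kap i₀}`, `P = VS E₀ (cN {i₀})`, `Q = VS E₀ (cP i₀)` (`P P ⊆ Q`, `P Q ⊆ P` by [MUL]; the conditions at `l ≠ i₀` are `RM 1 false c` with `c && c = c`). `q = li F`, `F x = 1` if `pa x = r`, `¬ kap i₀ x`, else `0`: `q ∈ Q`: at `i₀` zero at the ends; at `l ≠ i₀` with both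
ends of parity `r`: both values are `1` ([RVF] (1), (3)); joined at `E₀`. Suppose not `finrank P < finrank Q`. [SUP] (2): for all `x` with `pa (im x) = r`, `¬ kap i₀ (im x)` some `p ∈ P` is nonzero at `x`, so the `p₀` of [SUP] (1) is nonzero at all these `x`. Then `q' ↦ p₀ q'` maps `VS S (update cId i₀ RPer)` to `VS S (update cId i₀ RNeg)`, for every `S`:
conditions at the arcs by [MUL]; at `k ∈ S ∩ E₀` by [MUL] (2); at `k ∈ S \ E₀` one end is in `kap i₀`, where `q'` is zero (`q' = li F'`, constant on regions, zero at `md (a i₀)`, `md (a i₀ + w i₀)`), so `q'` is zero at both ends (`Lk q' = 0`). It is injective: `p₀ q' = 0` gives `q' x = 0` for `¬ kap i₀ (im x)`, and for the others `q' x = 0` as before. So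
`finrank VS S (update cId i₀ RPer) ≤ finrank VS S (update cId i₀ RNeg)`, against the hypothesis. -/
def St_XTR : Prop := ∀ (r : Bool) (u v : Word) (g : ℕ) (a w : Fin g → ℕ), Geo r u v a w →
  ∀ i₀ : Fin g, (∃ S : Finset (Fin (nX (u ++ v))),
    Module.finrank (ZMod 3) (VS r u v a w S (Function.update (cId w) i₀ (RNeg (w i₀)))) <
      Module.finrank (ZMod 3) (VS r u v a w S (Function.update (cId w) i₀ (RPer (w i₀))))) →
  ∃ E₀ : Finset (Fin (nX (u ++ v))),
    Module.finrank (ZMod 3) (VS r u v a w E₀ (cN r a w {i₀})) <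
      Module.finrank (ZMod 3) (VS r u v a w E₀ (cP r a w i₀))

/-- [CNC] PROOF (from LIF, OUT). `p ∈ VS univ (cP i₀) ≤ VS ∅ cId`: `p = li F` [LIF], `F` is constant on touching pairs and equal at the ends of all `ed r k` ([LIF] (2)). `Con`: `F` is constant on the regions of parity `r`. So `p ↦ F (md 0 or any fixed x of parity r)` is injective (`finrank ≤ 1`, `LinearMap.finrank_le_finrank_of_injective`; if there is no `x` of parity
`r` the space is zero), and if one end of the arc `i₀` has parity `r` then `F` is zero there, `p = 0`. -/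
def St_CNC : Prop := ∀ (r : Bool) (u v : Word) (g : ℕ) (a w : Fin g → ℕ), Geo r u v a w →
  Con (u ++ v) → ∀ i₀ : Fin g,
  Module.finrank (ZMod 3) (VS r u v a w Finset.univ (cP r a w i₀)) +
    (if one r (a i₀) (w i₀) = true then 1 else 0) ≤ 1

open Classical in
/-- [DM] the result of part D.
PROOF (from LN3, CD1, OUT, RKN, GRP, ADD, DIM, EXA, XTR, CNC). `n₀ = finrank VS ∅ (cN univ)`. `ne_i = [one_i] + [bth_i]`. (1), (2) from DIM. (3) RKN. (4) LN3 with `ι = Finset (Fin g)`, `R N = rk (cN N)`, `r = rk (cN {i₀})`, `r' = rk (cP i₀)`, `S = E₀` [XTR]. Hypothesis on pairs: `rk (cP i₀) T ≤ rk (cN ∅) T` for all `T` by CD1 (`VS ∅ (cP i₀) ≤ VS ∅ (cN ∅)` as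
`RPer ≤ RCon`, [MUL] (4); `K' = ⨅ k ∈ T, ker Lk`). `D = finrank VS ∅ (cP i₀) = finrank VS ∅ (cN {i₀}) = n₀ + #{i ≠ i₀ : one_i}`. `r' E₀ = D - finrank VS E₀ (cP i₀) ≤ D - finrank VS E₀ (cN {i₀}) - 1 = r E₀ - 1`; `r' univ ≥ D - (1 - [one_(i₀)])` [CNC]. So the sum is `≤ -1 - D + 1 - [one_(i₀)] = -(n₀ + #{i : one_i})`. (5) GRP, ADD, EXA. -/
def St_DM : Prop := ∀ (r : Bool) (u v : Word) (g : ℕ) (a w : Fin g → ℕ), Geo r u v a w →
  Con (u ++ v) → Hd r u v a w →
  (∃ (i₀ : Fin g) (S : Finset (Fin (nX (u ++ v)))),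
    Module.finrank (ZMod 3) (VS r u v a w S (Function.update (cId w) i₀ (RNeg (w i₀)))) <
      Module.finrank (ZMod 3) (VS r u v a w S (Function.update (cId w) i₀ (RPer (w i₀))))) →
  ∃ n₀ : ℕ,
    (∀ N : Finset (Fin g), Module.finrank (ZMod 3) (VS r u v a w ∅ (cN r a w N)) =
      n₀ + (Finset.univ.filter fun i => i ∉ N ∧ one r (a i) (w i) = true).card) ∧
    n₀ + ∑ i, ne r (a i) (w i) = Module.finrank (ZMod 3) (VS r u v a w ∅ (cId w)) ∧
    (∀ N : Finset (Fin g), RkF (rk r u v a w (cN r a w N)) ∧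
      ∀ k, rk r u v a w (cN r a w N) {k} = 1) ∧
    (∑ S ∈ Finset.univ.filter (fun S : Finset (Fin (nX (u ++ v))) =>
      S ≠ ∅ ∧ ∀ N, rk r u v a w (cN r a w N) S ≤ 1), (-1 : ℤ) ^ S.card ≤
      -((n₀ : ℤ) + (Finset.univ.filter fun i => one r (a i) (w i) = true).card)) ∧
    ∀ S : Finset (Fin (nX (u ++ v))), (∀ N, rk r u v a w (cN r a w N) S ≤ 1) →
      Sep r u v a w S ∧
      (∀ R : (∀ i, Submodule (ZMod 3) (Row (w i) × Row (w i))),
        Module.finrank (ZMod 3) (VS r u v a w S R) +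
            g * Module.finrank (ZMod 3) (VS r u v a w S (cId w)) =
          ∑ i, Module.finrank (ZMod 3) (VS r u v a w S (Function.update (cId w) i (R i))) +
            Module.finrank (ZMod 3) (VS r u v a w S (cId w))) ∧
      ∀ i, Module.finrank (ZMod 3) (VS r u v a w S (Function.update (cId w) i (RNeg (w i)))) =
        Module.finrank (ZMod 3) (VS r u v a w S (Function.update (cId w) i (RPer (w i))))

end Pool.TMX
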